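import Mathlib

/-!
# Compact metric graphs, the Laplacian with delta vertex conditions, and hot spots
-/

set_option autoImplicit false

namespace Pool.Agent.R228.QG

open Set

/-- A metric graph with vertex set `V` and edge set `E`: the edge `e` is a copy of the interval
`[0, len e]`, whose end `0` is glued to the vertex `src e` and whose end `len e` is glued to the
vertex `tgt e`. Loops and multiple edges are allowed. The graph is compact when `V` and `E` are
finite. -/
structure MGraph (V E : Type) where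
  /-- the vertex at the end `0` of an edge -/
  src : E → V
  /-- the vertex at the end `len e` of an edge -/
  tgt : E → V
  /-- the length of an edge -/
  len : E → ℝ
  len_pos : ∀ e, 0 < len e

variable {V E : Type}

/-- The graph is connected: there is a vertex, and any two vertices are joined by a chain of
edges. -/
def MGraph.Connected (Γ : MGraph V E) : Prop :=
  Nonempty V ∧ ∀ v w : V, Relation.ReflTransGen
    (fun a b => ∃ e, (Γ.src e = a ∧ Γ.tgt e = b) ∨ (Γ.src e = b ∧ Γ.tgt e = a)) v w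

/-- The edge `e₀` is a bridge: when it is removed, some two vertices are no longer joined by a chain
of edges. -/
def MGraph.IsBridge (Γ : MGraph V E) (e₀ : E) : Prop :=
  ∃ v w : V, ¬ Relation.ReflTransGen
    (fun a b => ∃ e, e ≠ e₀ ∧ ((Γ.src e = a ∧ Γ.tgt e = b) ∨ (Γ.src e = b ∧ Γ.tgt e = a))) v w

/-- The degree of a vertex: the number of edge ends at it (a loop counts twice). -/
def MGraph.degree [Fintype E] [DecidableEq V] (Γ : MGraph V E) (v : V) : ℕ :=
  (Finset.univ.filter fun e => Γ.src e = v).card + (Finset.univ.filter fun e => Γ.tgt e = v).card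

/-- The points of the metric graph: the vertices, and the points `x` in the open interval
`(0, len e)` of each edge `e`. -/
def MGraph.Point (Γ : MGraph V E) : Type := V ⊕ {p : E × ℝ // 0 < p.2 ∧ p.2 < Γ.len p.1}

/-- A real function on a metric graph, given by its values at the vertices and by its values
`edge e x` at the points `x` of the edges `e`. -/
structure Fn (V E : Type) where
  /-- the values at the vertices -/
  vert : V → ℝ
  /-- the values on the edges -/
  edge : E → ℝ → ℝ

/-- The value of a function at a point. -/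
def Fn.val {Γ : MGraph V E} (f : Fn V E) : Γ.Point → ℝ
  | Sum.inl v => f.vert v
  | Sum.inr p => f.edge p.1.1 p.1.2

/-- `f` is an eigenfunction, with eigenvalue `lam`, of the operator `f ↦ -f''` on `Γ` with the
`δ`-conditions of strengths `α v` at the vertices `v`: it is not zero, it is continuous on `Γ`, on
each edge `[0, len e]` it is twice differentiable with `-f'' = lam f` (`g` is the derivative of `f`,
one-sided at the end points), and at each vertex `v` the sum of the derivatives of `f` taken into the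
edges (over all edge ends at `v`) is `α v * f v`. For `α = 0` these are the standard (Kirchhoff)
conditions. -/
def IsEigenfunction [Fintype E] [DecidableEq V] (Γ : MGraph V E) (α : V → ℝ) (lam : ℝ)
    (f : Fn V E) : Prop :=
  (∃ P : Γ.Point, f.val P ≠ 0) ∧ ∃ g : E → ℝ → ℝ,
    (∀ e, f.edge e 0 = f.vert (Γ.src e)) ∧ (∀ e, f.edge e (Γ.len e) = f.vert (Γ.tgt e)) ∧
    (∀ e, ∀ x ∈ Icc 0 (Γ.len e), HasDerivWithinAt (f.edge e) (g e x) (Icc 0 (Γ.len e)) x) ∧
    (∀ e, ∀ x ∈ Icc 0 (Γ.len e),
      HasDerivWithinAt (g e) (-(lam * f.edge e x)) (Icc 0 (Γ.len e)) x) ∧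
    ∀ v, (∑ e with Γ.src e = v, g e 0) - (∑ e with Γ.tgt e = v, g e (Γ.len e)) = α v * f.vert v

/-- `lam` is an eigenvalue. -/
def IsEigenvalue [Fintype E] [DecidableEq V] (Γ : MGraph V E) (α : V → ℝ) (lam : ℝ) : Prop :=
  ∃ f : Fn V E, IsEigenfunction Γ α lam f

/-- `μ` is the second eigenvalue: there is a least eigenvalue `lam₁` (which is simple when `Γ` is
connected), and `μ` is the least eigenvalue larger than `lam₁`. -/
def IsSecondEigenvalue [Fintype E] [DecidableEq V] (Γ : MGraph V E) (α : V → ℝ) (μ : ℝ) : Prop :=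
  ∃ lam₁ : ℝ, IsLeast {lam | IsEigenvalue Γ α lam} lam₁ ∧
    IsLeast {lam | IsEigenvalue Γ α lam ∧ lam₁ < lam} μ

/-- The hot-spot set `M`: the points of `Γ` at which some second eigenfunction attains its global
maximum or its global minimum over `Γ`. -/
def hotSet [Fintype E] [DecidableEq V] (Γ : MGraph V E) (α : V → ℝ) : Set Γ.Point :=
  {P | ∃ (μ : ℝ) (f : Fn V E), IsSecondEigenvalue Γ α μ ∧ IsEigenfunction Γ α μ f ∧
    ((∀ Q : Γ.Point, f.val Q ≤ f.val P) ∨ (∀ Q : Γ.Point, f.val P ≤ f.val Q))}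

/-! ### solutions on an interval -/

theorem edge_sol {f g : ℝ → ℝ} {L k : ℝ} (hk : 0 < k)
    (hf : ∀ x ∈ Icc 0 L, HasDerivWithinAt f (g x) (Icc 0 L) x)
    (hg : ∀ x ∈ Icc 0 L, HasDerivWithinAt g (-(k ^ 2 * f x)) (Icc 0 L) x) {x : ℝ}
    (hx : x ∈ Icc 0 L) :
    f x = f 0 * Real.cos (k * x) + g 0 / k * Real.sin (k * x) ∧
    g x = -(k * f 0 * Real.sin (k * x)) + g 0 * Real.cos (k * x) := by
  have hcos : ∀ x, HasDerivAt (fun x => Real.cos (k * x)) (-(k * Real.sin (k * x))) x := by
    intro x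
    have h1 : HasDerivAt (fun x : ℝ => k * x) k x := by
      simpa using (hasDerivAt_id x).const_mul k
    have h2 := (Real.hasDerivAt_cos (k * x)).comp x h1
    have e : -Real.sin (k * x) * k = -(k * Real.sin (k * x)) := by ring
    rw [e] at h2
    exact h2
  have hsin : ∀ x, HasDerivAt (fun x => Real.sin (k * x)) (k * Real.cos (k * x)) x := by
    intro x
    have h1 : HasDerivAt (fun x : ℝ => k * x) k x := by
      simpa using (hasDerivAt_id x).const_mul k
    have h2 := (Real.hasDerivAt_sin (k * x)).comp x h1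
    have e : Real.cos (k * x) * k = k * Real.cos (k * x) := by ring
    rw [e] at h2
    exact h2
  -- the two constants
  have hconst : ∀ (F : ℝ → ℝ), (∀ x ∈ Icc 0 L, HasDerivWithinAt F 0 (Icc 0 L) x) →
      ∀ x ∈ Icc 0 L, F x = F 0 := by
    intro F hF x hx
    refine constant_of_derivWithin_zero (fun y hy => (hF y hy).differentiableWithinAt) ?_ x hx
    intro y hy
    have hL : (0 : ℝ) < L := lt_of_le_of_lt hy.1 hy.2
    exact (hF y ⟨hy.1, hy.2.le⟩).derivWithin (uniqueDiffOn_Icc hL y ⟨hy.1, hy.2.le⟩)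
  have h1 := hconst (fun x => f x * Real.cos (k * x) - g x * Real.sin (k * x) / k) (by
    intro x hx
    have := ((hf x hx).fun_mul (hcos x).hasDerivWithinAt).fun_sub
      (((hg x hx).fun_mul (hsin x).hasDerivWithinAt).div_const k)
    refine this.congr_deriv ?_
    field_simp
    ring) x hx
  have h2 := hconst (fun x => k * f x * Real.sin (k * x) + g x * Real.cos (k * x)) (by
    intro x hx
    have := (((hf x hx).const_mul k).fun_mul (hsin x).hasDerivWithinAt).fun_add
      ((hg x hx).fun_mul (hcos x).hasDerivWithinAt)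
    refine this.congr_deriv ?_
    ring) x hx
  simp only [mul_zero, Real.cos_zero, Real.sin_zero, mul_one, sub_zero, zero_add, zero_div] at h1 h2
  have hcs := Real.sin_sq_add_cos_sq (k * x)
  constructor
  · rw [← h1, ← h2]
    field_simp
    linear_combination (-(k * f x)) * hcs
  · rw [← h1, ← h2]
    field_simp
    linear_combination (-(g x)) * hcs

/-- On an interval the product `f f'` of a solution with `lam ≤ 0` is monotone. -/
theorem edge_mono {f g : ℝ → ℝ} {L lam : ℝ} (hL : 0 < L) (hlam : lam ≤ 0)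
    (hf : ∀ x ∈ Icc 0 L, HasDerivWithinAt f (g x) (Icc 0 L) x)
    (hg : ∀ x ∈ Icc 0 L, HasDerivWithinAt g (-(lam * f x)) (Icc 0 L) x) :
    f 0 * g 0 ≤ f L * g L ∧ (f 0 * g 0 = f L * g L →
      ∀ x ∈ Icc 0 L, g x ^ 2 - lam * f x ^ 2 = 0) := by
  have hE : ∀ x ∈ Icc 0 L, HasDerivWithinAt (fun x => f x * g x) (g x ^ 2 - lam * f x ^ 2)
      (Icc 0 L) x := by
    intro x hx
    have := (hf x hx).fun_mul (hg x hx)
    refine this.congr_deriv ?_
    ring
  have hcont : ContinuousOn (fun x => f x * g x) (Icc 0 L) := fun x hx =>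
    (hE x hx).continuousWithinAt
  have hmono : MonotoneOn (fun x => f x * g x) (Icc 0 L) := by
    refine monotoneOn_of_deriv_nonneg (convex_Icc 0 L) hcont ?_ ?_
    · intro x hx
      rw [interior_Icc] at hx
      exact ((hE x (Ioo_subset_Icc_self hx)).hasDerivAt
        (Icc_mem_nhds hx.1 hx.2)).differentiableAt.differentiableWithinAt
    · intro x hx
      rw [interior_Icc] at hx
      rw [((hE x (Ioo_subset_Icc_self hx)).hasDerivAt (Icc_mem_nhds hx.1 hx.2)).deriv]
      nlinarith [sq_nonneg (g x), sq_nonneg (f x)]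
  refine ⟨hmono (left_mem_Icc.2 hL.le) (right_mem_Icc.2 hL.le) hL.le, ?_⟩
  intro heq x hx
  have hconst : ∀ y ∈ Icc 0 L, f y * g y = f 0 * g 0 := by
    intro y hy
    apply le_antisymm
    · rw [heq]
      exact hmono hy (right_mem_Icc.2 hL.le) hy.2
    · exact hmono (left_mem_Icc.2 hL.le) hy hy.1
  have h0 : HasDerivWithinAt (fun x => f x * g x) 0 (Icc 0 L) x :=
    (hasDerivWithinAt_const x (Icc 0 L) (f 0 * g 0)).congr hconst (hconst x hx)
  exact (uniqueDiffOn_Icc hL x hx).eq_deriv _ (hE x hx) h0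

section general

variable [Fintype E] [DecidableEq V] {Γ : MGraph V E} {α : V → ℝ} {lam : ℝ} {f : Fn V E}

/-- The summation by parts formula. -/
theorem sum_parts [Fintype V] (g : E → ℝ → ℝ)
    (h0 : ∀ e, f.edge e 0 = f.vert (Γ.src e)) (h1 : ∀ e, f.edge e (Γ.len e) = f.vert (Γ.tgt e))
    (hK : ∀ v, (∑ e with Γ.src e = v, g e 0) - (∑ e with Γ.tgt e = v, g e (Γ.len e)) =
      α v * f.vert v) :
    ∑ e, (f.edge e (Γ.len e) * g e (Γ.len e) - f.edge e 0 * g e 0) =
      -∑ v, α v * f.vert v ^ 2 := by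
  have e1 : ∑ e, f.edge e (Γ.len e) * g e (Γ.len e) =
      ∑ v, f.vert v * ∑ e with Γ.tgt e = v, g e (Γ.len e) := by
    rw [← Finset.sum_fiberwise (s := Finset.univ) (g := Γ.tgt)]
    refine Finset.sum_congr rfl fun v _ => ?_
    rw [Finset.mul_sum]
    refine Finset.sum_congr rfl fun e he => ?_
    rw [Finset.mem_filter] at he
    rw [h1, he.2]
  have e2 : ∑ e, f.edge e 0 * g e 0 = ∑ v, f.vert v * ∑ e with Γ.src e = v, g e 0 := by
    rw [← Finset.sum_fiberwise (s := Finset.univ) (g := Γ.src)]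
    refine Finset.sum_congr rfl fun v _ => ?_
    rw [Finset.mul_sum]
    refine Finset.sum_congr rfl fun e he => ?_
    rw [Finset.mem_filter] at he
    rw [h0, he.2]
  rw [Finset.sum_sub_distrib, e1, e2, ← Finset.sum_sub_distrib, ← Finset.sum_neg_distrib]
  refine Finset.sum_congr rfl fun v _ => ?_
  rw [← mul_sub]
  have := hK v
  have e3 : (∑ e with Γ.tgt e = v, g e (Γ.len e)) - (∑ e with Γ.src e = v, g e 0) =
      -(α v * f.vert v) := by linarith
  rw [e3]
  ring

/-- With nonnegative strengths there is no negative eigenvalue. -/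
theorem nonneg_of_isEigenvalue [Fintype V] (hα : ∀ v, 0 ≤ α v) (h : IsEigenfunction Γ α lam f)
    (hdeg : ∀ v, (∃ e, Γ.src e = v) ∨ ∃ e, Γ.tgt e = v) : 0 ≤ lam := by
  by_contra hlam
  push Not at hlam
  obtain ⟨⟨P, hP⟩, g, h0, h1, hf, hg, hK⟩ := h
  have hs := sum_parts (Γ := Γ) (α := α) (f := f) g h0 h1 hK
  have hnn : 0 ≤ ∑ v, α v * f.vert v ^ 2 :=
    Finset.sum_nonneg fun v _ => mul_nonneg (hα v) (sq_nonneg _)
  have hm := fun e => edge_mono (Γ.len_pos e) hlam.le (hf e) (hg e)
  have hterm : ∀ e ∈ Finset.univ, 0 ≤ f.edge e (Γ.len e) * g e (Γ.len e) - f.edge e 0 * g e 0 :=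
    fun e _ => by linarith [(hm e).1]
  have hzero : ∑ e, (f.edge e (Γ.len e) * g e (Γ.len e) - f.edge e 0 * g e 0) = 0 :=
    le_antisymm (by rw [hs]; linarith) (Finset.sum_nonneg hterm)
  rw [Finset.sum_eq_zero_iff_of_nonneg hterm] at hzero
  have hfz : ∀ e, ∀ x ∈ Icc 0 (Γ.len e), f.edge e x = 0 := by
    intro e x hx
    have h2 := (hm e).2 (by linarith [hzero e (Finset.mem_univ e)]) x hx
    have h3 : f.edge e x ^ 2 = 0 := by nlinarith [sq_nonneg (g e x), sq_nonneg (f.edge e x)]
    exact pow_eq_zero_iff (two_ne_zero) |>.1 h3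
  apply hP
  rcases P with v | ⟨⟨e, x⟩, hx⟩
  · show f.vert v = 0
    rcases hdeg v with ⟨e, rfl⟩ | ⟨e, rfl⟩
    · rw [← h0 e]
      exact hfz e 0 (left_mem_Icc.2 (Γ.len_pos e).le)
    · rw [← h1 e]
      exact hfz e _ (right_mem_Icc.2 (Γ.len_pos e).le)
  · exact hfz e x ⟨hx.1.le, hx.2.le⟩

end general

end Pool.Agent.R228.QG
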