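import Pool.Agent.R228.QG.Tri2

/-!
# Equilateral complete bipartite graphs
-/

set_option autoImplicit false

namespace Pool.Agent.R228.QG

open Set

/-- The complete bipartite graph with `m` and `n` vertices in the two classes and one edge of length
`π / 2` between each vertex of the first class and each vertex of the second class. -/
noncomputable def bip (m n : ℕ) : MGraph (Fin m ⊕ Fin n) (Fin m × Fin n) where
  src := fun e => Sum.inl e.1
  tgt := fun e => Sum.inr e.2
  len := fun _ => Real.pi / 2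
  len_pos := fun _ => by positivity

/-- `Δ` is an equilateral pumpkin: two vertices joined by at least two edges of the same length. -/
def IsEquilateralPumpkin {V E : Type} [Fintype V] [Fintype E] (Δ : MGraph V E) : Prop :=
  Fintype.card V = 2 ∧ 2 ≤ Fintype.card E ∧ (∀ e, Δ.src e ≠ Δ.tgt e) ∧ ∃ l, ∀ e, Δ.len e = l

/-- `Δ` is an equilateral complete graph: there are no loops, any two distinct vertices are joined by
exactly one edge, and all edges have the same length. -/
def IsEquilateralComplete {V E : Type} (Δ : MGraph V E) : Prop :=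
  (∀ e, Δ.src e ≠ Δ.tgt e) ∧
  (∀ v w, v ≠ w → ∃! e, (Δ.src e = v ∧ Δ.tgt e = w) ∨ (Δ.src e = w ∧ Δ.tgt e = v)) ∧
  ∃ l, ∀ e, Δ.len e = l

/-- The number of vertices of degree `d`. For `d ≥ 3` this is the number of points of the metric
space `Δ` of valency `d`; it is invariant under isometries and does not change when vertices of
degree `2` are inserted or removed. -/
def numDeg {V E : Type} [Fintype V] [Fintype E] [DecidableEq V] (Δ : MGraph V E) (d : ℕ) : ℕ :=
  (Finset.univ.filter fun v => Δ.degree v = d).card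

section bip

variable {m n : ℕ}

theorem bip_connected (hm : 0 < m) (hn : 0 < n) : (bip m n).Connected := by
  refine ⟨⟨Sum.inl ⟨0, hm⟩⟩, ?_⟩
  set R : Fin m ⊕ Fin n → Fin m ⊕ Fin n → Prop :=
    fun a b => ∃ e, ((bip m n).src e = a ∧ (bip m n).tgt e = b) ∨
      ((bip m n).src e = b ∧ (bip m n).tgt e = a) with hR
  have hsymm : ∀ a b, R a b → R b a := by
    rintro a b ⟨e, h | h⟩
    · exact ⟨e, Or.inr h⟩
    · exact ⟨e, Or.inl h⟩
  have h1 : ∀ j : Fin n, Relation.ReflTransGen R (Sum.inl ⟨0, hm⟩) (Sum.inr j) := fun j =>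
    Relation.ReflTransGen.single ⟨(⟨0, hm⟩, j), Or.inl ⟨rfl, rfl⟩⟩
  have hall : ∀ v, Relation.ReflTransGen R (Sum.inl ⟨0, hm⟩) v := by
    rintro (i | j)
    · exact (h1 ⟨0, hn⟩).tail ⟨(i, ⟨0, hn⟩), Or.inr ⟨rfl, rfl⟩⟩
    · exact h1 j
  intro v w
  have : Std.Symm R := ⟨hsymm⟩
  exact (Std.Symm.symm _ _ (hall v)).trans (hall w)

theorem bsum_src_l (i : Fin m) (G : Fin m × Fin n → ℝ) :
    ∑ e with (bip m n).src e = Sum.inl i, G e = ∑ j, G (i, j) := by
  rw [Finset.sum_filter, Fintype.sum_prod_type]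
  rw [Finset.sum_eq_single i]
  · refine Finset.sum_congr rfl fun j _ => if_pos rfl
  · intro b _ hb
    refine Finset.sum_eq_zero fun j _ => if_neg ?_
    intro h
    exact hb (Sum.inl_injective h)
  · intro h
    exact absurd (Finset.mem_univ i) h

theorem bsum_src_r (j : Fin n) (G : Fin m × Fin n → ℝ) :
    ∑ e with (bip m n).src e = Sum.inr j, G e = 0 := by
  rw [Finset.sum_filter]
  refine Finset.sum_eq_zero fun e _ => if_neg ?_
  intro h
  exact Sum.inl_ne_inr h

theorem bsum_tgt_l (i : Fin m) (G : Fin m × Fin n → ℝ) :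
    ∑ e with (bip m n).tgt e = Sum.inl i, G e = 0 := by
  rw [Finset.sum_filter]
  refine Finset.sum_eq_zero fun e _ => if_neg ?_
  intro h
  exact Sum.inr_ne_inl h

theorem bsum_tgt_r (j : Fin n) (G : Fin m × Fin n → ℝ) :
    ∑ e with (bip m n).tgt e = Sum.inr j, G e = ∑ i, G (i, j) := by
  rw [Finset.sum_filter, Fintype.sum_prod_type, Finset.sum_comm]
  rw [Finset.sum_eq_single j]
  · refine Finset.sum_congr rfl fun i _ => if_pos rfl
  · intro b _ hb
    refine Finset.sum_eq_zero fun i _ => if_neg ?_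
    intro h
    exact hb (Sum.inr_injective h)
  · intro h
    exact absurd (Finset.mem_univ j) h

theorem bip_no_small (hm : 0 < m) (hn : 0 < n) {k : ℝ} (hk : 0 < k) (hk1 : k < 1)
    {f : Fn (Fin m ⊕ Fin n) (Fin m × Fin n)}
    (hf : IsEigenfunction (bip m n) (fun _ => 0) (k ^ 2) f) : False := by
  obtain ⟨⟨P, hP⟩, g, h0, h1, hd, hg, hK⟩ := hf
  have hπ := Real.pi_pos
  set L := Real.pi / 2 with hL
  have hLin : L ∈ Icc (0 : ℝ) L := ⟨by positivity, le_rfl⟩
  have hs : 0 < Real.sin (k * L) := by
    apply Real.sin_pos_of_pos_of_lt_pi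
    · positivity
    · nlinarith
  have hc : 0 < Real.cos (k * L) := by
    apply Real.cos_pos_of_mem_Ioo
    constructor
    · nlinarith
    · nlinarith
  have hsc := Real.sin_sq_add_cos_sq (k * L)
  have sol : ∀ e, ∀ x ∈ Icc 0 L, _ := fun e x hx =>
    edge_sol (f := f.edge e) (g := g e) (L := L) (k := k) hk (hd e) (hg e) (x := x) hx
  have v0 : ∀ i j, f.edge (i, j) 0 = f.vert (Sum.inl i) := fun i j => h0 (i, j)
  have v1 : ∀ i j, f.edge (i, j) L = f.vert (Sum.inr j) := fun i j => h1 (i, j)
  have G0 : ∀ i j, g (i, j) 0 * Real.sin (k * L) =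
      k * (f.vert (Sum.inr j) - f.vert (Sum.inl i) * Real.cos (k * L)) := by
    intro i j
    have := (sol (i, j) L hLin).1
    rw [v1, v0] at this
    rw [this]
    field_simp
    ring
  have G1 : ∀ i j, g (i, j) L * Real.sin (k * L) =
      k * (f.vert (Sum.inr j) * Real.cos (k * L) - f.vert (Sum.inl i)) := by
    intro i j
    have := (sol (i, j) L hLin).2
    rw [v0] at this
    rw [this]
    have h3 := G0 i j
    linear_combination (Real.cos (k * L)) * h3 - k * f.vert (Sum.inl i) * hsc
  have K1 : ∀ i, ∑ j, f.vert (Sum.inr j) = n * (f.vert (Sum.inl i) * Real.cos (k * L)) := by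
    intro i
    have := hK (Sum.inl i)
    rw [zero_mul, bsum_src_l, bsum_tgt_l, sub_zero] at this
    have h3 : ∑ j, g (i, j) 0 * Real.sin (k * L) = 0 := by
      rw [← Finset.sum_mul, this, zero_mul]
    simp only [G0] at h3
    rw [← Finset.mul_sum] at h3
    have h4 := (mul_eq_zero.1 h3).resolve_left hk.ne'
    rw [Finset.sum_sub_distrib, Finset.sum_const, Finset.card_univ, Fintype.card_fin,
      nsmul_eq_mul] at h4
    linarith
  have K2 : ∀ j, ∑ i, f.vert (Sum.inl i) = m * (f.vert (Sum.inr j) * Real.cos (k * L)) := by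
    intro j
    have := hK (Sum.inr j)
    rw [zero_mul, bsum_src_r, bsum_tgt_r, zero_sub, neg_eq_zero] at this
    have h3 : ∑ i, g (i, j) L * Real.sin (k * L) = 0 := by
      rw [← Finset.sum_mul]
      have : ∑ i, g (i, j) L = 0 := this
      rw [this, zero_mul]
    simp only [G1] at h3
    rw [← Finset.mul_sum] at h3
    have h4 := (mul_eq_zero.1 h3).resolve_left hk.ne'
    rw [Finset.sum_sub_distrib, Finset.sum_const, Finset.card_univ, Fintype.card_fin,
      nsmul_eq_mul] at h4
    linarith
  have hn' : (0 : ℝ) < n := by exact_mod_cast hn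
  have hm' : (0 : ℝ) < m := by exact_mod_cast hm
  -- the vertex values are constant on the classes
  have c1 : ∀ i, f.vert (Sum.inl i) = f.vert (Sum.inl ⟨0, hm⟩) := by
    intro i
    have h3 := K1 i
    rw [K1 ⟨0, hm⟩] at h3
    have h4 : (n * Real.cos (k * L)) * (f.vert (Sum.inl i) - f.vert (Sum.inl ⟨0, hm⟩)) = 0 := by
      linarith
    have h5 := (mul_eq_zero.1 h4).resolve_left (by positivity)
    linarith
  have c2 : ∀ j, f.vert (Sum.inr j) = f.vert (Sum.inr ⟨0, hn⟩) := by
    intro j
    have h3 := K2 j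
    rw [K2 ⟨0, hn⟩] at h3
    have h4 : (m * Real.cos (k * L)) * (f.vert (Sum.inr j) - f.vert (Sum.inr ⟨0, hn⟩)) = 0 := by
      linarith
    have h5 := (mul_eq_zero.1 h4).resolve_left (by positivity)
    linarith
  have d1 : f.vert (Sum.inr ⟨0, hn⟩) = f.vert (Sum.inl ⟨0, hm⟩) * Real.cos (k * L) := by
    have h3 := K1 ⟨0, hm⟩
    simp only [c2] at h3
    rw [Finset.sum_const, Finset.card_univ, Fintype.card_fin, nsmul_eq_mul] at h3
    exact mul_left_cancel₀ hn'.ne' h3
  have d2 : f.vert (Sum.inl ⟨0, hm⟩) = f.vert (Sum.inr ⟨0, hn⟩) * Real.cos (k * L) := by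
    have h3 := K2 ⟨0, hn⟩
    simp only [c1] at h3
    rw [Finset.sum_const, Finset.card_univ, Fintype.card_fin, nsmul_eq_mul] at h3
    exact mul_left_cancel₀ hm'.ne' h3
  have d3 : f.vert (Sum.inl ⟨0, hm⟩) = 0 := by
    have h3 : f.vert (Sum.inl ⟨0, hm⟩) * (1 - Real.cos (k * L) ^ 2) = 0 := by
      rw [d1] at d2
      linear_combination d2
    refine (mul_eq_zero.1 h3).resolve_right ?_
    have : 0 < Real.sin (k * L) ^ 2 := by positivity
    linarith
  have e1 : ∀ i, f.vert (Sum.inl i) = 0 := fun i => by rw [c1, d3]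
  have e2 : ∀ j, f.vert (Sum.inr j) = 0 := fun j => by rw [c2, d1, d3, zero_mul]
  apply hP
  rcases P with (i | j) | ⟨⟨⟨i, j⟩, x⟩, hx⟩
  · exact e1 i
  · exact e2 j
  · show f.edge (i, j) x = 0
    have h3 := (sol (i, j) x ⟨hx.1.le, hx.2.le⟩).1
    have h4 := G0 i j
    rw [e1, e2, zero_mul, sub_zero, mul_zero] at h4
    have h5 := (mul_eq_zero.1 h4).resolve_right hs.ne'
    rw [h3, v0, e1, h5]
    ring

/-- The eigenfunction with the values `U` and `W` at the vertices. -/
noncomputable def bipFn (U : Fin m → ℝ) (W : Fin n → ℝ) : Fn (Fin m ⊕ Fin n) (Fin m × Fin n) where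
  vert := fun v => match v with
    | Sum.inl i => U i
    | Sum.inr j => W j
  edge := fun e x => U e.1 * Real.cos x + W e.2 * Real.sin x

theorem bipFn_eigen (U : Fin m → ℝ) (W : Fin n → ℝ) (hU : ∑ i, U i = 0) (hW : ∑ j, W j = 0)
    (hne : (∃ i, U i ≠ 0) ∨ ∃ j, W j ≠ 0) :
    IsEigenfunction (bip m n) (fun _ => 0) 1 (bipFn U W) := by
  refine ⟨?_, fun e x => -(U e.1 * Real.sin x) + W e.2 * Real.cos x, ?_, ?_, ?_, ?_, ?_⟩
  · rcases hne with ⟨i, hi⟩ | ⟨j, hj⟩
    · exact ⟨Sum.inl (Sum.inl i), hi⟩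
    · exact ⟨Sum.inl (Sum.inr j), hj⟩
  · intro e
    show U e.1 * Real.cos 0 + W e.2 * Real.sin 0 = U e.1
    simp
  · intro e
    show U e.1 * Real.cos (Real.pi / 2) + W e.2 * Real.sin (Real.pi / 2) = W e.2
    simp
  · intro e x _
    have := ((Real.hasDerivAt_cos x).const_mul (U e.1)).fun_add
      ((Real.hasDerivAt_sin x).const_mul (W e.2))
    refine this.hasDerivWithinAt.congr_deriv ?_
    ring
  · intro e x _
    have := ((Real.hasDerivAt_sin x).const_mul (U e.1)).fun_neg.fun_add
      ((Real.hasDerivAt_cos x).const_mul (W e.2))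
    refine this.hasDerivWithinAt.congr_deriv ?_
    show _ = -(1 * (U e.1 * Real.cos x + W e.2 * Real.sin x))
    ring
  · rintro (i | j)
    · rw [zero_mul, bsum_src_l, bsum_tgt_l]
      simp [hW]
    · rw [zero_mul, bsum_src_r, bsum_tgt_r]
      show (0 : ℝ) - ∑ i, (-(U i * Real.sin (Real.pi / 2)) + W j * Real.cos (Real.pi / 2)) = 0
      simp [hU]

theorem bip_least_zero (hm : 0 < m) (hn : 0 < n) :
    IsLeast {lam | IsEigenvalue (bip m n) (fun _ => 0) lam} 0 := by
  refine ⟨?_, fun _ ⟨_, hf⟩ => nonneg_of_isEigenvalue (fun _ => le_rfl) hf ?_⟩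
  · refine ⟨⟨fun _ => 1, fun _ _ => 1⟩, ⟨Sum.inl (Sum.inl ⟨0, hm⟩), one_ne_zero⟩, fun _ _ => 0,
      fun _ => rfl, fun _ => rfl, fun e x _ => hasDerivWithinAt_const _ _ _, fun e x _ => ?_,
      fun v => ?_⟩
    · rw [zero_mul, neg_zero]
      exact hasDerivWithinAt_const _ _ _
    · simp
  · rintro (i | j)
    · exact Or.inl ⟨(i, ⟨0, hn⟩), rfl⟩
    · exact Or.inr ⟨(⟨0, hm⟩, j), rfl⟩

/-- The weights of the eigenfunctions that peak in a given class. -/
noncomputable def wt {N : ℕ} (i0 : Fin N) (c : ℝ) (i : Fin N) : ℝ :=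
  if i = i0 then c else -(c / ((N : ℝ) - 1))

theorem wt_sum {N : ℕ} (hN : 2 ≤ N) (i0 : Fin N) (c : ℝ) : ∑ i, wt i0 c i = 0 := by
  have hN1 : (N : ℝ) - 1 ≠ 0 := by
    have : (2 : ℝ) ≤ N := by exact_mod_cast hN
    linarith
  have h1 : ∀ i, wt i0 c i = -(c / ((N : ℝ) - 1)) +
      if i = i0 then c + c / ((N : ℝ) - 1) else 0 := by
    intro i
    unfold wt
    split_ifs <;> ring
  simp only [h1]
  rw [Finset.sum_add_distrib, Finset.sum_ite_eq' Finset.univ i0, if_pos (Finset.mem_univ _),
    Finset.sum_const, Finset.card_univ, Fintype.card_fin, nsmul_eq_mul]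
  field_simp
  ring

theorem wt_le {N : ℕ} (hN : 2 ≤ N) (i0 : Fin N) {c : ℝ} (hc : 0 ≤ c) (i : Fin N) :
    wt i0 c i ≤ c := by
  have hN1 : 0 < (N : ℝ) - 1 := by
    have : (2 : ℝ) ≤ N := by exact_mod_cast hN
    linarith
  unfold wt
  split_ifs
  · exact le_rfl
  · have : 0 ≤ c / ((N : ℝ) - 1) := by positivity
    linarith

theorem wt_self {N : ℕ} (i0 : Fin N) (c : ℝ) : wt i0 c i0 = c := if_pos rfl

theorem bip_second (hm : 2 ≤ m) (hn : 2 ≤ n) :
    IsSecondEigenvalue (bip m n) (fun _ => 0) 1 := by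
  have hm0 : 0 < m := by omega
  have hn0 : 0 < n := by omega
  refine ⟨0, bip_least_zero hm0 hn0, ⟨⟨bipFn (wt ⟨0, hm0⟩ 1) (fun _ => 0),
    bipFn_eigen _ _ (wt_sum hm _ _) (by simp) (Or.inl ⟨⟨0, hm0⟩, ?_⟩)⟩, one_pos⟩, ?_⟩
  · rw [wt_self]
    exact one_ne_zero
  · rintro lam ⟨⟨f, hf⟩, hlam⟩
    by_contra h
    push Not at h
    have hk : 0 < Real.sqrt lam := Real.sqrt_pos.2 hlam
    have hk1 : Real.sqrt lam < 1 := by
      rw [Real.sqrt_lt' one_pos]
      simpa using h
    refine bip_no_small (f := f) hm0 hn0 hk hk1 ?_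
    rw [Real.sq_sqrt hlam.le]
    exact hf

theorem bip_hot (hm : 2 ≤ m) (hn : 2 ≤ n) : hotSet (bip m n) (fun _ => 0) = Set.univ := by
  rw [Set.eq_univ_iff_forall]
  have hπ := Real.pi_pos
  -- the eigenfunctions
  have key : ∀ (i0 : Fin m) (j0 : Fin n) (t : ℝ), 0 ≤ t → t ≤ Real.pi / 2 →
      IsEigenfunction (bip m n) (fun _ => 0) 1
        (bipFn (wt i0 (Real.cos t)) (wt j0 (Real.sin t))) ∧
      ∀ Q : (bip m n).Point, (bipFn (wt i0 (Real.cos t)) (wt j0 (Real.sin t))).val Q ≤ 1 := by
    intro i0 j0 t ht0 ht1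
    have hc : 0 ≤ Real.cos t := Real.cos_nonneg_of_neg_pi_div_two_le_of_le (by linarith) ht1
    have hs : 0 ≤ Real.sin t := Real.sin_nonneg_of_nonneg_of_le_pi ht0 (by linarith)
    refine ⟨bipFn_eigen _ _ (wt_sum hm _ _) (wt_sum hn _ _) ?_, ?_⟩
    · by_contra h
      push Not at h
      have h1 := h.1 i0
      have h2 := h.2 j0
      rw [wt_self] at h1 h2
      have := Real.sin_sq_add_cos_sq t
      rw [h1, h2] at this
      norm_num at this
    · rintro ((i | j) | ⟨⟨⟨i, j⟩, x⟩, hx⟩)
      · exact (wt_le hm i0 hc i).trans (Real.cos_le_one t)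
      · exact (wt_le hn j0 hs j).trans (Real.sin_le_one t)
      · have hx0 : 0 < x := hx.1
        have hx1 : x < Real.pi / 2 := hx.2
        show wt i0 (Real.cos t) i * Real.cos x + wt j0 (Real.sin t) j * Real.sin x ≤ 1
        have hcx : 0 ≤ Real.cos x :=
          Real.cos_nonneg_of_neg_pi_div_two_le_of_le (by linarith) (by linarith)
        have hsx : 0 ≤ Real.sin x := Real.sin_nonneg_of_nonneg_of_le_pi (by linarith) (by linarith)
        have h1 := mul_le_mul_of_nonneg_right (wt_le hm i0 hc i) hcx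
        have h2 := mul_le_mul_of_nonneg_right (wt_le hn j0 hs j) hsx
        have h3 := Real.cos_le_one (t - x)
        rw [Real.cos_sub] at h3
        linarith
  rintro ((i | j) | ⟨⟨⟨i, j⟩, x⟩, hx⟩)
  · have hj : Fin n := ⟨0, by omega⟩
    obtain ⟨h1, h2⟩ := key i hj 0 le_rfl (by positivity)
    refine ⟨1, _, bip_second hm hn, h1, Or.inl fun Q => ?_⟩
    refine (h2 Q).trans (le_of_eq ?_)
    show 1 = wt i (Real.cos 0) i
    rw [wt_self, Real.cos_zero]
  · have hi : Fin m := ⟨0, by omega⟩
    obtain ⟨h1, h2⟩ := key hi j (Real.pi / 2) (by positivity) le_rfl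
    refine ⟨1, _, bip_second hm hn, h1, Or.inl fun Q => ?_⟩
    refine (h2 Q).trans (le_of_eq ?_)
    show 1 = wt j (Real.sin (Real.pi / 2)) j
    rw [wt_self, Real.sin_pi_div_two]
  · have hx0 : 0 < x := hx.1
    have hx1 : x < Real.pi / 2 := hx.2
    obtain ⟨h1, h2⟩ := key i j x hx0.le hx1.le
    refine ⟨1, _, bip_second hm hn, h1, Or.inl fun Q => ?_⟩
    refine (h2 Q).trans (le_of_eq ?_)
    show 1 = wt i (Real.cos x) i * Real.cos x + wt j (Real.sin x) j * Real.sin x
    rw [wt_self, wt_self]
    have := Real.sin_sq_add_cos_sq x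
    linarith

/-! ### degrees -/

theorem bip_degree_l (i : Fin m) : (bip m n).degree (Sum.inl i) = n := by
  unfold MGraph.degree
  have h1 : (Finset.univ.filter fun e => (bip m n).src e = Sum.inl i) =
      Finset.univ.image fun j : Fin n => (i, j) := by
    ext ⟨a, b⟩
    simp only [Finset.mem_filter, Finset.mem_univ, true_and, Finset.mem_image, Prod.mk.injEq]
    constructor
    · intro h
      exact ⟨b, (Sum.inl_injective h).symm, rfl⟩
    · rintro ⟨_, rfl, rfl⟩
      rfl
  have h2 : (Finset.univ.filter fun e => (bip m n).tgt e = Sum.inl i) = ∅ := by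
    rw [Finset.filter_eq_empty_iff]
    intro e _ h
    exact Sum.inr_ne_inl h
  rw [h1, h2, Finset.card_image_of_injective _ (fun a b h => by simpa using h)]
  simp

theorem bip_degree_r (j : Fin n) : (bip m n).degree (Sum.inr j) = m := by
  unfold MGraph.degree
  have h1 : (Finset.univ.filter fun e => (bip m n).tgt e = Sum.inr j) =
      Finset.univ.image fun i : Fin m => (i, j) := by
    ext ⟨a, b⟩
    simp only [Finset.mem_filter, Finset.mem_univ, true_and, Finset.mem_image, Prod.mk.injEq]
    constructor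
    · intro h
      exact ⟨a, rfl, (Sum.inr_injective h).symm⟩
    · rintro ⟨_, rfl, rfl⟩
      rfl
  have h2 : (Finset.univ.filter fun e => (bip m n).src e = Sum.inr j) = ∅ := by
    rw [Finset.filter_eq_empty_iff]
    intro e _ h
    exact Sum.inl_ne_inr h
  rw [h1, h2, Finset.card_image_of_injective _ (fun a b h => by simpa using h)]
  simp

/-- The degrees of an equilateral complete graph. -/
theorem complete_degree {V E : Type} [Fintype V] [Fintype E] [DecidableEq V] {Δ : MGraph V E}
    (h : IsEquilateralComplete Δ) (v : V) : Δ.degree v + 1 = Fintype.card V := by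
  classical
  obtain ⟨hl, hu, -⟩ := h
  unfold MGraph.degree
  rw [← Finset.card_union_of_disjoint]
  · have h1 : ((Finset.univ.filter fun e => Δ.src e = v) ∪
        (Finset.univ.filter fun e => Δ.tgt e = v)).card = (Finset.univ.erase v).card := by
      refine Finset.card_bij (fun e _ => if Δ.src e = v then Δ.tgt e else Δ.src e) ?_ ?_ ?_
      · intro e he
        simp only [Finset.mem_union, Finset.mem_filter, Finset.mem_univ, true_and] at he
        simp only [Finset.mem_erase, Finset.mem_univ, and_true]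
        split_ifs with h2
        · intro h3
          exact hl e (h2.trans h3.symm)
        · exact h2
      · intro e he e' he' hee
        simp only [Finset.mem_union, Finset.mem_filter, Finset.mem_univ, true_and] at he he'
        by_cases h2 : Δ.src e = v <;> by_cases h3 : Δ.src e' = v
        · rw [if_pos h2, if_pos h3] at hee
          have hne : v ≠ Δ.tgt e := fun h4 => hl e (h2.trans h4)
          exact (hu v (Δ.tgt e) hne).unique (Or.inl ⟨h2, rfl⟩) (Or.inl ⟨h3, hee.symm⟩)
        · rw [if_pos h2, if_neg h3] at hee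
          have h3' := he'.resolve_left h3
          have hne : v ≠ Δ.tgt e := fun h4 => hl e (h2.trans h4)
          exact (hu v (Δ.tgt e) hne).unique (Or.inl ⟨h2, rfl⟩) (Or.inr ⟨hee.symm, h3'⟩)
        · rw [if_neg h2, if_pos h3] at hee
          have h2' := he.resolve_left h2
          have hne : v ≠ Δ.src e := fun h4 => h2 h4.symm
          exact (hu v (Δ.src e) hne).unique (Or.inr ⟨rfl, h2'⟩) (Or.inl ⟨h3, hee.symm⟩)
        · rw [if_neg h2, if_neg h3] at hee
          have h2' := he.resolve_left h2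
          have h3' := he'.resolve_left h3
          have hne : v ≠ Δ.src e := fun h4 => h2 h4.symm
          exact (hu v (Δ.src e) hne).unique (Or.inr ⟨rfl, h2'⟩) (Or.inr ⟨hee.symm, h3'⟩)
      · intro w hw
        simp only [Finset.mem_erase, Finset.mem_univ, and_true] at hw
        obtain ⟨e, he, -⟩ := hu v w hw.symm
        refine ⟨e, ?_, ?_⟩
        · simp only [Finset.mem_union, Finset.mem_filter, Finset.mem_univ, true_and]
          rcases he with he | he
          · exact Or.inl he.1
          · exact Or.inr he.2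
        · rcases he with he | he
          · rw [if_pos he.1, he.2]
          · rw [if_neg (by rw [he.1]; exact hw), he.1]
    rw [h1, Finset.card_erase_of_mem (Finset.mem_univ v), Finset.card_univ]
    have : 0 < Fintype.card V := Fintype.card_pos_iff.2 ⟨v⟩
    omega
  · rw [Finset.disjoint_left]
    intro e h1 h2
    simp only [Finset.mem_filter, Finset.mem_univ, true_and] at h1 h2
    exact hl e (h1.trans h2.symm)

theorem bip_ne (hm : 3 ≤ m) (hn : 3 ≤ n) {V E : Type} [Fintype V] [Fintype E] [DecidableEq V]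
    (Δ : MGraph V E) (h : IsEquilateralPumpkin Δ ∨ IsEquilateralComplete Δ) :
    ∃ d, 3 ≤ d ∧ numDeg (bip m n) d ≠ numDeg Δ d := by
  classical
  have hcount : m ≤ numDeg (bip m n) n := by
    unfold numDeg
    calc m = (Finset.univ.image fun i : Fin m => (Sum.inl i : Fin m ⊕ Fin n)).card := by
          rw [Finset.card_image_of_injective _ Sum.inl_injective]
          simp
      _ ≤ _ := by
          refine Finset.card_le_card ?_
          intro v hv
          simp only [Finset.mem_image, Finset.mem_univ, true_and] at hv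
          obtain ⟨i, rfl⟩ := hv
          simp only [Finset.mem_filter, Finset.mem_univ, true_and]
          exact bip_degree_l i
  have hcount2 : n ≤ numDeg (bip m n) m := by
    unfold numDeg
    calc n = (Finset.univ.image fun i : Fin n => (Sum.inr i : Fin m ⊕ Fin n)).card := by
          rw [Finset.card_image_of_injective _ Sum.inr_injective]
          simp
      _ ≤ _ := by
          refine Finset.card_le_card ?_
          intro v hv
          simp only [Finset.mem_image, Finset.mem_univ, true_and] at hv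
          obtain ⟨i, rfl⟩ := hv
          simp only [Finset.mem_filter, Finset.mem_univ, true_and]
          exact bip_degree_r i
  rcases h with h | h
  · refine ⟨n, hn, fun h2 => ?_⟩
    have h3 : numDeg Δ n ≤ Fintype.card V := by
      unfold numDeg
      exact Finset.card_le_univ _
    rw [h.1] at h3
    omega
  · by_contra hcon
    push Not at hcon
    have h1 := hcon n hn
    have h2 := hcon m hm
    have hdeg := complete_degree h
    have hpos1 : 0 < numDeg Δ n := by omega
    have hpos2 : 0 < numDeg Δ m := by omega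
    unfold numDeg at hpos1 hpos2
    obtain ⟨v, hv⟩ := Finset.card_pos.1 hpos1
    obtain ⟨w, hw⟩ := Finset.card_pos.1 hpos2
    simp only [Finset.mem_filter, Finset.mem_univ, true_and] at hv hw
    have e1 := hdeg v
    have e2 := hdeg w
    rw [hv] at e1
    rw [hw] at e2
    have hmn : m = n := by omega
    subst hmn
    have h3 : numDeg (bip m m) m = m + m := by
      unfold numDeg
      have : (Finset.univ.filter fun v => (bip m m).degree v = m) = Finset.univ := by
        rw [Finset.filter_eq_self]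
        rintro (i | j) _
        · exact bip_degree_l i
        · exact bip_degree_r j
      rw [this]
      simp
    have h4 : numDeg Δ m ≤ Fintype.card V := by
      unfold numDeg
      exact Finset.card_le_univ _
    omega

end bip

end Pool.Agent.R228.QG
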