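import Pool.Agent.R228.QG.Tri2

/-!
# A triangle with delta conditions of strength one at the corners
-/

set_option autoImplicit false

namespace Pool.Agent.R228.QG

open Set

/-- With positive strengths all eigenvalues are positive. -/
theorem pos_of_isEigenvalue {V E : Type} [Fintype E] [DecidableEq V] [Fintype V] {Γ : MGraph V E}
    {α : V → ℝ} {lam : ℝ} {f : Fn V E} (hα : ∀ v, 0 < α v) (h : IsEigenfunction Γ α lam f) :
    0 < lam := by
  by_contra hlam
  push Not at hlam
  obtain ⟨⟨P, hP⟩, g, h0, h1, hf, hg, hK⟩ := h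
  have hs := sum_parts (Γ := Γ) (α := α) (f := f) g h0 h1 hK
  have hm := fun e => edge_mono (Γ.len_pos e) hlam (hf e) (hg e)
  have hterm : ∀ e ∈ Finset.univ, 0 ≤ f.edge e (Γ.len e) * g e (Γ.len e) - f.edge e 0 * g e 0 :=
    fun e _ => by linarith [(hm e).1]
  have hnn : ∀ v ∈ Finset.univ, 0 ≤ α v * f.vert v ^ 2 :=
    fun v _ => mul_nonneg (hα v).le (sq_nonneg _)
  have hzero : ∑ v, α v * f.vert v ^ 2 = 0 :=
    le_antisymm (by linarith [Finset.sum_nonneg hterm]) (Finset.sum_nonneg hnn)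
  have hv : ∀ v, f.vert v = 0 := by
    intro v
    have := (Finset.sum_eq_zero_iff_of_nonneg hnn).1 hzero v (Finset.mem_univ v)
    have h2 := (mul_eq_zero.1 this).resolve_left (hα v).ne'
    exact (pow_eq_zero_iff two_ne_zero).1 h2
  have hg0 : ∀ e, ∀ x ∈ Icc 0 (Γ.len e), g e x = 0 := by
    intro e x hx
    have h2 := (hm e).2 (by rw [h0, h1, hv, hv]; ring) x hx
    have h3 : g e x ^ 2 = 0 := by nlinarith [sq_nonneg (g e x), sq_nonneg (f.edge e x)]
    exact pow_eq_zero_iff (two_ne_zero) |>.1 h3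
  have hfz : ∀ e, ∀ x ∈ Icc 0 (Γ.len e), f.edge e x = 0 := by
    intro e x hx
    rw [← hv (Γ.src e), ← h0 e]
    refine constant_of_derivWithin_zero (fun y hy => (hf e y hy).differentiableWithinAt) ?_ x hx
    intro y hy
    rw [(hf e y ⟨hy.1, hy.2.le⟩).derivWithin
      (uniqueDiffOn_Icc (Γ.len_pos e) y ⟨hy.1, hy.2.le⟩)]
    exact hg0 e y ⟨hy.1, hy.2.le⟩
  apply hP
  rcases P with v | ⟨⟨e, x⟩, hx⟩
  · exact hv v
  · exact hfz e x ⟨hx.1.le, hx.2.le⟩

/-- The length of the sides of the triangle. -/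
noncomputable def dL : ℝ := Real.arccos (-4 / 5)

theorem cos_dL : Real.cos dL = -4 / 5 := Real.cos_arccos (by norm_num) (by norm_num)

theorem sin_dL : Real.sin dL = 3 / 5 := by
  rw [dL, Real.sin_arccos, show (1 : ℝ) - (-4 / 5) ^ 2 = (3 / 5) ^ 2 by norm_num,
    Real.sqrt_sq (by norm_num)]

theorem dL_pos : 0 < dL := Real.arccos_pos.2 (by norm_num)

theorem dL_lt : dL < Real.pi := by
  refine lt_of_le_of_ne (Real.arccos_le_pi _) fun h => ?_
  have := cos_dL
  rw [h, Real.cos_pi] at this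
  norm_num at this

theorem dL_gt : Real.pi / 2 < dL := by
  by_contra h
  push Not at h
  have := Real.cos_nonneg_of_neg_pi_div_two_le_of_le (x := dL) (by linarith [dL_pos, Real.pi_pos]) h
  rw [cos_dL] at this
  norm_num at this

/-- The triangle with vertices `0`, `1`, `2` and the sides `i` of length `dL` from `i` to
`i + 1`. -/
noncomputable def cyc : MGraph (Fin 3) (Fin 3) where
  src := fun i => i
  tgt := fun i => i + 1
  len := fun _ => dL
  len_pos := fun _ => dL_pos

theorem cyc_connected : cyc.Connected := by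
  refine ⟨⟨0⟩, ?_⟩
  set R : Fin 3 → Fin 3 → Prop :=
    fun a b => ∃ e, (cyc.src e = a ∧ cyc.tgt e = b) ∨ (cyc.src e = b ∧ cyc.tgt e = a) with hR
  have hsymm : ∀ a b, R a b → R b a := by
    rintro a b ⟨e, h | h⟩
    · exact ⟨e, Or.inr h⟩
    · exact ⟨e, Or.inl h⟩
  have hall : ∀ i : Fin 3, Relation.ReflTransGen R 0 i := by
    intro i
    fin_cases i
    · exact Relation.ReflTransGen.refl
    · exact Relation.ReflTransGen.single ⟨0, Or.inl ⟨rfl, rfl⟩⟩
    · exact Relation.ReflTransGen.single ⟨2, Or.inr ⟨rfl, rfl⟩⟩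
  intro v w
  have : Std.Symm R := ⟨hsymm⟩
  exact (Std.Symm.symm _ _ (hall v)).trans (hall w)

theorem csum_src (v : Fin 3) (G : Fin 3 → ℝ) :
    ∑ e with cyc.src e = v, G e = G v := by
  rw [Finset.sum_filter, Fin.sum_univ_three]
  fin_cases v <;> simp [cyc]

theorem csum_tgt (v : Fin 3) (G : Fin 3 → ℝ) :
    ∑ e with cyc.tgt e = v, G e = G (v + 2) := by
  rw [Finset.sum_filter, Fin.sum_univ_three]
  fin_cases v <;> simp [cyc]

section analysis

variable {k : ℝ} {f : Fn (Fin 3) (Fin 3)}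

theorem sin_kd (hk : 0 < k) (hk1 : k ≤ 1) : 0 < Real.sin (k * dL) := by
  apply Real.sin_pos_of_pos_of_lt_pi
  · exact mul_pos hk dL_pos
  · nlinarith [dL_lt, dL_pos]

/-- The eigenfunctions for small wave numbers. -/
theorem canalysis (hk : 0 < k) (hk1 : k ≤ 1) (hf : IsEigenfunction cyc (fun _ => 1) (k ^ 2) f) :
    (∀ i, ∀ x ∈ Icc 0 dL, f.edge i x * Real.sin (k * dL) =
      f.vert i * Real.sin (k * (dL - x)) + f.vert (i + 1) * Real.sin (k * x)) ∧
    (∀ i, k * (f.vert (i + 1) + f.vert (i + 2)) =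
      (2 * k * Real.cos (k * dL) + Real.sin (k * dL)) * f.vert i) := by
  obtain ⟨-, g, h0, h1, hd, hg, hK⟩ := hf
  have hsa := sin_kd hk hk1
  have hain : dL ∈ Icc (0 : ℝ) dL := ⟨dL_pos.le, le_rfl⟩
  have sol1 : ∀ i, ∀ x ∈ Icc 0 dL, _ := fun i x hx =>
    edge_sol (f := f.edge i) (g := g i) (L := dL) (k := k) hk (hd i) (hg i) (x := x) hx
  have v0 : ∀ i, f.edge i 0 = f.vert i := fun i => h0 i
  have v1 : ∀ i, f.edge i dL = f.vert (i + 1) := fun i => h1 i
  have K2 : ∀ i, g i 0 - g (i + 2) dL = f.vert i := by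
    intro i
    have := hK i
    rw [csum_src, csum_tgt, one_mul] at this
    exact this
  have G0 : ∀ i, g i 0 * Real.sin (k * dL) =
      k * (f.vert (i + 1) - f.vert i * Real.cos (k * dL)) := by
    intro i
    have := (sol1 i dL hain).1
    rw [v1, v0] at this
    rw [this]
    field_simp
    ring
  have G1 : ∀ i, g i dL * Real.sin (k * dL) =
      k * (f.vert (i + 1) * Real.cos (k * dL) - f.vert i) := by
    intro i
    have := (sol1 i dL hain).2
    rw [v0] at this
    rw [this]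
    have h3 := G0 i
    have h4 := Real.sin_sq_add_cos_sq (k * dL)
    linear_combination (Real.cos (k * dL)) * h3 - k * f.vert i * h4
  refine ⟨?_, ?_⟩
  · intro i x hx
    have h3 := (sol1 i x hx).1
    have h4 := G0 i
    rw [v0] at h3
    rw [h3, mul_sub, Real.sin_sub]
    field_simp
    linear_combination (Real.sin (k * x)) * h4
  · intro i
    have h3 := K2 i
    have h4 := G0 i
    have h5 := G1 (i + 2)
    have e : i + 2 + 1 = i := by
      fin_cases i <;> rfl
    rw [e] at h5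
    linear_combination (Real.sin (k * dL)) * h3 - h4 + h5

/-- The function is zero when it vanishes at the corners. -/
theorem czero_of_corners (hk : 0 < k) (hk1 : k ≤ 1)
    (hf : IsEigenfunction cyc (fun _ => 1) (k ^ 2) f) (hz : ∀ i, f.vert i = 0) : False := by
  obtain ⟨h1, -⟩ := canalysis hk hk1 hf
  have hsa := sin_kd hk hk1
  obtain ⟨⟨P, hP⟩, -⟩ := hf
  apply hP
  rcases P with i | ⟨⟨e, x⟩, hx⟩
  · exact hz i
  · have := h1 e x ⟨hx.1.le, hx.2.le⟩
    rw [hz, hz, zero_mul, zero_mul, add_zero] at this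
    exact (mul_eq_zero.1 this).resolve_right hsa.ne'

theorem sin_scale {k k' : ℝ} (hk : 0 < k) (hkk : k ≤ k') (hk1 : k' ≤ 1) :
    k * Real.sin (k' * dL) ≤ k' * Real.sin (k * dL) := by
  have hk' : 0 < k' := hk.trans_le hkk
  have hc := strictConcaveOn_sin_Icc.concaveOn
  have h1 : k' * dL ∈ Icc 0 Real.pi :=
    ⟨by have := dL_pos; positivity, by nlinarith [dL_lt, dL_pos]⟩
  have h0 : (0 : ℝ) ∈ Icc 0 Real.pi := ⟨le_rfl, Real.pi_pos.le⟩
  have ha1 : (0 : ℝ) ≤ 1 - k / k' := by rw [sub_nonneg, div_le_one hk']; exact hkk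
  have ha2 : (0 : ℝ) ≤ k / k' := by positivity
  have h2 := hc.2 h0 h1 ha1 ha2 (by ring)
  simp only [smul_eq_mul, mul_zero, Real.sin_zero, zero_add] at h2
  have e : k / k' * (k' * dL) = k * dL := by field_simp
  rw [e] at h2
  have e2 : k' * (k / k' * Real.sin (k' * dL)) = k * Real.sin (k' * dL) := by field_simp
  rw [← e2]
  exact mul_le_mul_of_nonneg_left h2 hk'.le

theorem cos_scale {k k' : ℝ} (hk : 0 < k) (hkk : k < k') (hk1 : k' ≤ 1) :
    Real.cos (k' * dL) < Real.cos (k * dL) := by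
  have hd := dL_pos
  exact Real.cos_lt_cos_of_nonneg_of_le_pi (by positivity) (by nlinarith [dL_lt]) (by nlinarith)

/-- An eigenvalue `k ^ 2 < 1` solves the equation of the constant vertex values. -/
theorem csmall (hk : 0 < k) (hk1 : k < 1) (hf : IsEigenfunction cyc (fun _ => 1) (k ^ 2) f) :
    2 * k * Real.cos (k * dL) + Real.sin (k * dL) = 2 * k := by
  obtain ⟨-, h4⟩ := canalysis hk hk1.le hf
  by_contra hT1
  have hT2 : -k < 2 * k * Real.cos (k * dL) + Real.sin (k * dL) := by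
    have h1 := sin_scale hk hk1.le le_rfl
    have h2 := cos_scale hk hk1 le_rfl
    rw [one_mul, sin_dL] at h1
    rw [one_mul, cos_dL] at h2
    nlinarith
  set T := 2 * k * Real.cos (k * dL) + Real.sin (k * dL)
  have e0 := h4 0
  have e1 := h4 1
  have e2 := h4 2
  have r1 : (0 : Fin 3) + 1 = 1 := rfl
  have r2 : (0 : Fin 3) + 2 = 2 := rfl
  have r3 : (1 : Fin 3) + 1 = 2 := rfl
  have r4 : (1 : Fin 3) + 2 = 0 := rfl
  have r5 : (2 : Fin 3) + 1 = 0 := rfl
  have r6 : (2 : Fin 3) + 2 = 1 := rfl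
  rw [r1, r2] at e0
  rw [r3, r4] at e1
  rw [r5, r6] at e2
  have hS : (T - 2 * k) * (f.vert 0 + f.vert 1 + f.vert 2) = 0 := by
    linear_combination -e0 - e1 - e2
  have hS0 : f.vert 0 + f.vert 1 + f.vert 2 = 0 :=
    (mul_eq_zero.1 hS).resolve_left (sub_ne_zero.2 hT1)
  have z0 : f.vert 0 = 0 := by
    have : (T + k) * f.vert 0 = 0 := by linear_combination -e0 + k * hS0
    exact (mul_eq_zero.1 this).resolve_left (by linarith)
  have z1 : f.vert 1 = 0 := by
    have : (T + k) * f.vert 1 = 0 := by linear_combination -e1 + k * hS0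
    exact (mul_eq_zero.1 this).resolve_left (by linarith)
  have z2 : f.vert 2 = 0 := by
    have : (T + k) * f.vert 2 = 0 := by linear_combination -e2 + k * hS0
    exact (mul_eq_zero.1 this).resolve_left (by linarith)
  refine czero_of_corners hk hk1.le hf fun i => ?_
  fin_cases i
  · exact z0
  · exact z1
  · exact z2

/-- The equation of the constant vertex values has at most one solution. -/
theorem croot_unique {k k' : ℝ} (hk : 0 < k) (hkk : k < k') (hk1 : k' ≤ 1)
    (h : 2 * k * Real.cos (k * dL) + Real.sin (k * dL) = 2 * k)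
    (h' : 2 * k' * Real.cos (k' * dL) + Real.sin (k' * dL) = 2 * k') : False := by
  have h1 := sin_scale hk hkk.le hk1
  have h2 := cos_scale hk hkk hk1
  have e1 : Real.sin (k * dL) = 2 * k * (1 - Real.cos (k * dL)) := by linarith
  have e2 : Real.sin (k' * dL) = 2 * k' * (1 - Real.cos (k' * dL)) := by linarith
  rw [e1, e2] at h1
  have hk' : 0 < k' := hk.trans hkk
  have : k * k' * (1 - Real.cos (k' * dL)) ≤ k * k' * (1 - Real.cos (k * dL)) := by nlinarith
  have h3 := le_of_mul_le_mul_left this (mul_pos hk hk')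
  linarith

theorem croot_exists : ∃ k : ℝ, 0 < k ∧ k < 1 ∧
    2 * k * Real.cos (k * dL) + Real.sin (k * dL) = 2 * k := by
  have hcont : ContinuousOn (fun k : ℝ => 2 * k * Real.cos (k * dL) + Real.sin (k * dL) - 2 * k)
      (Icc (1 / 2) 1) := by fun_prop
  have hd := dL_pos
  have hd2 := dL_lt
  have hs : 0 < Real.sin (1 / 2 * dL) :=
    Real.sin_pos_of_pos_of_lt_pi (by positivity) (by linarith [Real.pi_pos])
  have hc : 0 < Real.cos (1 / 2 * dL) :=
    Real.cos_pos_of_mem_Ioo ⟨by linarith [Real.pi_pos], by linarith⟩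
  have h1 := Real.sin_sq_add_cos_sq (1 / 2 * dL)
  have hl : 0 < 2 * (1 / 2 : ℝ) * Real.cos (1 / 2 * dL) + Real.sin (1 / 2 * dL) - 2 * (1 / 2) := by
    nlinarith [mul_pos hs hc]
  have hr : 2 * (1 : ℝ) * Real.cos (1 * dL) + Real.sin (1 * dL) - 2 * 1 < 0 := by
    rw [one_mul dL, cos_dL, sin_dL]
    norm_num
  obtain ⟨k, hk, hk0⟩ := intermediate_value_Icc' (by norm_num : (1 / 2 : ℝ) ≤ 1) hcont
    (Set.mem_Icc.2 ⟨hr.le, hl.le⟩)
  have hk0' : 2 * k * Real.cos (k * dL) + Real.sin (k * dL) - 2 * k = 0 := hk0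
  refine ⟨k, by linarith [hk.1], lt_of_le_of_ne hk.2 ?_, by linarith⟩
  rintro rfl
  linarith

end analysis

/-- The eigenfunction with the values `F` at the corners. -/
noncomputable def cycFn (k : ℝ) (F : Fin 3 → ℝ) : Fn (Fin 3) (Fin 3) where
  vert := F
  edge := fun i x => (F i * Real.sin (k * (dL - x)) + F (i + 1) * Real.sin (k * x)) /
    Real.sin (k * dL)

theorem cycFn_eigen {k : ℝ} (hk : 0 < k) (hk1 : k ≤ 1) (F : Fin 3 → ℝ)
    (hF : ∀ i, k * (F (i + 1) + F (i + 2)) =
      (2 * k * Real.cos (k * dL) + Real.sin (k * dL)) * F i) (hne : ∃ i, F i ≠ 0) :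
    IsEigenfunction cyc (fun _ => 1) (k ^ 2) (cycFn k F) := by
  have hsa := sin_kd hk hk1
  have hs : ∀ (x : ℝ), HasDerivAt (fun x => Real.sin (k * (dL - x)))
      (-(k * Real.cos (k * (dL - x)))) x := by
    intro x
    have h1 : HasDerivAt (fun x : ℝ => k * (dL - x)) (-k) x := by
      simpa using ((hasDerivAt_id x).const_sub dL).const_mul k
    have h2 := (Real.hasDerivAt_sin (k * (dL - x))).comp x h1
    have e : Real.cos (k * (dL - x)) * -k = -(k * Real.cos (k * (dL - x))) := by ring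
    rw [e] at h2
    exact h2
  have hc : ∀ (x : ℝ), HasDerivAt (fun x => Real.cos (k * (dL - x)))
      (k * Real.sin (k * (dL - x))) x := by
    intro x
    have h1 : HasDerivAt (fun x : ℝ => k * (dL - x)) (-k) x := by
      simpa using ((hasDerivAt_id x).const_sub dL).const_mul k
    have h2 := (Real.hasDerivAt_cos (k * (dL - x))).comp x h1
    have e : -Real.sin (k * (dL - x)) * -k = k * Real.sin (k * (dL - x)) := by ring
    rw [e] at h2
    exact h2
  have hs' : ∀ (x : ℝ), HasDerivAt (fun x => Real.sin (k * x)) (k * Real.cos (k * x)) x := by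
    intro x
    have h1 : HasDerivAt (fun x : ℝ => k * x) k x := by
      simpa using (hasDerivAt_id x).const_mul k
    have h2 := (Real.hasDerivAt_sin (k * x)).comp x h1
    have e : Real.cos (k * x) * k = k * Real.cos (k * x) := by ring
    rw [e] at h2
    exact h2
  have hc' : ∀ (x : ℝ), HasDerivAt (fun x => Real.cos (k * x)) (-(k * Real.sin (k * x))) x := by
    intro x
    have h1 : HasDerivAt (fun x : ℝ => k * x) k x := by
      simpa using (hasDerivAt_id x).const_mul k
    have h2 := (Real.hasDerivAt_cos (k * x)).comp x h1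
    have e : -Real.sin (k * x) * k = -(k * Real.sin (k * x)) := by ring
    rw [e] at h2
    exact h2
  refine ⟨?_, fun i x => (-(k * F i * Real.cos (k * (dL - x))) + k * F (i + 1) * Real.cos (k * x)) /
    Real.sin (k * dL), ?_, ?_, ?_, ?_, ?_⟩
  · obtain ⟨i, hi⟩ := hne
    exact ⟨Sum.inl i, hi⟩
  · intro i
    show (F i * Real.sin (k * (dL - 0)) + F (i + 1) * Real.sin (k * 0)) / Real.sin (k * dL) = F i
    rw [sub_zero, mul_zero, Real.sin_zero]
    field_simp
    ring
  · intro i
    show (F i * Real.sin (k * (dL - dL)) + F (i + 1) * Real.sin (k * dL)) / Real.sin (k * dL) =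
      F (i + 1)
    rw [sub_self, mul_zero, Real.sin_zero]
    field_simp
    ring
  · intro i x _
    have := ((((hs x).const_mul (F i)).fun_add
      ((hs' x).const_mul (F (i + 1)))).div_const (Real.sin (k * dL))).hasDerivWithinAt
        (s := Icc 0 (cyc.len i))
    refine this.congr_deriv ?_
    ring
  · intro i x _
    have := ((((hc x).const_mul (k * F i)).fun_neg.fun_add
      ((hc' x).const_mul (k * F (i + 1)))).div_const (Real.sin (k * dL))).hasDerivWithinAt
        (s := Icc 0 (cyc.len i))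
    refine this.congr_deriv ?_
    show _ = -(k ^ 2 * ((F i * Real.sin (k * (dL - x)) + F (i + 1) * Real.sin (k * x)) /
      Real.sin (k * dL)))
    ring
  · intro v
    rw [csum_src, csum_tgt, one_mul]
    have e : v + 2 + 1 = v := by
      fin_cases v <;> rfl
    have hv := hF v
    show (-(k * F v * Real.cos (k * (dL - 0))) + k * F (v + 1) * Real.cos (k * 0)) /
      Real.sin (k * dL) - (-(k * F (v + 2) * Real.cos (k * (dL - dL))) +
        k * F (v + 2 + 1) * Real.cos (k * dL)) / Real.sin (k * dL) = F v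
    rw [e, sub_zero, sub_self, mul_zero, Real.cos_zero]
    field_simp
    linear_combination hv

theorem cyc_second : IsSecondEigenvalue cyc (fun _ => 1) 1 := by
  obtain ⟨k₁, h0, h1, h2⟩ := croot_exists
  have hle : ∀ lam, IsEigenvalue cyc (fun _ => 1) lam → lam < 1 → lam = k₁ ^ 2 := by
    rintro lam ⟨f, hf⟩ hlam1
    have hlam : 0 < lam := pos_of_isEigenvalue (fun _ => one_pos) hf
    have hk : 0 < Real.sqrt lam := Real.sqrt_pos.2 hlam
    have hk1 : Real.sqrt lam < 1 := by
      rw [Real.sqrt_lt' one_pos]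
      simpa using hlam1
    have hsq := Real.sq_sqrt hlam.le
    have h3 := csmall (f := f) hk hk1 (by rw [hsq]; exact hf)
    rcases lt_trichotomy (Real.sqrt lam) k₁ with h | h | h
    · exact (croot_unique hk h h1.le h3 h2).elim
    · rw [← h, hsq]
    · exact (croot_unique h0 h hk1.le h2 h3).elim
  have hk1sq : k₁ ^ 2 < 1 := by nlinarith
  refine ⟨k₁ ^ 2, ⟨⟨_, cycFn_eigen h0 h1.le (fun _ => 1) (fun _ => by rw [h2]; ring)
    ⟨0, one_ne_zero⟩⟩, ?_⟩, ⟨⟨cycFn 1 ![1, -1, 0], ?_⟩, hk1sq⟩, ?_⟩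
  · intro lam hlam
    by_contra hcon
    push Not at hcon
    exact hcon.ne (hle lam hlam (hcon.trans hk1sq))
  · have := cycFn_eigen one_pos le_rfl ![1, -1, 0] (fun i => by
      rw [one_mul, one_mul, mul_one, cos_dL, sin_dL]
      fin_cases i <;> simp <;> norm_num) ⟨0, by simp⟩
    rw [one_pow] at this
    exact this
  · rintro lam ⟨hlam, hgt⟩
    by_contra hcon
    push Not at hcon
    exact hgt.ne' (hle lam hlam hcon)

theorem csecond_iff {μ : ℝ} (h : IsSecondEigenvalue cyc (fun _ => 1) μ) : μ = 1 := by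
  obtain ⟨l, h1, h2⟩ := h
  obtain ⟨l', h1', h2'⟩ := cyc_second
  have : l = l' := h1.unique h1'
  subst this
  exact h2.unique h2'

/-- The points in the middle of the first side are hot spots. -/
theorem cmem_hot {t : ℝ} (h0 : dL - Real.pi / 2 < t) (h1 : t < Real.pi / 2)
    (ht : 0 < t ∧ t < dL) :
    (Sum.inr ⟨(0, t), ht⟩ : cyc.Point) ∈ hotSet cyc (fun _ => 1) := by
  have hπ := Real.pi_pos
  have ha := dL_gt
  have hsa : 0 < Real.sin dL := by
    rw [sin_dL]
    norm_num
  have hc0 : 0 < Real.cos t := Real.cos_pos_of_mem_Ioo ⟨by linarith, by linarith⟩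
  have hc1 : 0 < Real.cos (dL - t) := Real.cos_pos_of_mem_Ioo ⟨by linarith, by linarith⟩
  have hb0 : Real.cos t ≤ 1 := Real.cos_le_one _
  have hb1 : Real.cos (dL - t) ≤ 1 := Real.cos_le_one _
  set F : Fin 3 → ℝ := ![Real.cos t, Real.cos (dL - t), -(Real.cos t + Real.cos (dL - t))] with hF
  have F0 : F 0 = Real.cos t := rfl
  have F1 : F 1 = Real.cos (dL - t) := rfl
  have F2 : F 2 = -(Real.cos t + Real.cos (dL - t)) := rfl
  have r3 : (1 : Fin 3) + 1 = 2 := rfl
  have r5 : (2 : Fin 3) + 1 = 0 := rfl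
  have r1 : (0 : Fin 3) + 1 = 1 := rfl
  have r2 : (0 : Fin 3) + 2 = 2 := rfl
  have r4 : (1 : Fin 3) + 2 = 0 := rfl
  have r6 : (2 : Fin 3) + 2 = 1 := rfl
  have hid : ∀ x, Real.cos t * Real.sin (dL - x) + Real.cos (dL - t) * Real.sin x =
      Real.sin dL * Real.cos (x - t) := by
    intro x
    rw [Real.sin_sub, Real.cos_sub, Real.cos_sub]
    have := Real.sin_sq_add_cos_sq t
    ring
  have heig : IsEigenfunction cyc (fun _ => 1) 1 (cycFn 1 F) := by
    have := cycFn_eigen one_pos le_rfl F (fun i => by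
      rw [one_mul, one_mul, mul_one, cos_dL, sin_dL]
      fin_cases i
      · show F (0 + 1) + F (0 + 2) = _ * F 0
        rw [r1, r2, F0, F1, F2]
        ring
      · show F (1 + 1) + F (1 + 2) = _ * F 1
        rw [r3, r4, F0, F1, F2]
        ring
      · show F (2 + 1) + F (2 + 2) = _ * F 2
        rw [r5, r6, F0, F1, F2]
        ring) ⟨0, hc0.ne'⟩
    rw [one_pow] at this
    exact this
  refine ⟨1, cycFn 1 F, cyc_second, heig, Or.inl fun Q => ?_⟩
  have hval : (cycFn 1 F).val (Sum.inr ⟨(0, t), ht⟩ : cyc.Point) = 1 := by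
    show (F 0 * Real.sin (1 * (dL - t)) + F (0 + 1) * Real.sin (1 * t)) / Real.sin (1 * dL) = 1
    rw [one_mul, one_mul, one_mul, r1, F0, F1, div_eq_one_iff_eq hsa.ne', hid t, sub_self,
      Real.cos_zero, mul_one]
  rw [hval]
  rcases Q with i | ⟨⟨i, x⟩, hx⟩
  · show F i ≤ 1
    fin_cases i
    · exact hb0
    · exact hb1
    · show -(Real.cos t + Real.cos (dL - t)) ≤ 1
      linarith
  · have hx0 : 0 < x := hx.1
    have hxa : x < dL := hx.2
    show (F i * Real.sin (1 * (dL - x)) + F (i + 1) * Real.sin (1 * x)) / Real.sin (1 * dL) ≤ 1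
    rw [one_mul, one_mul, one_mul, div_le_one hsa]
    have hsx : 0 ≤ Real.sin x := Real.sin_nonneg_of_nonneg_of_le_pi hx0.le (by linarith [dL_lt])
    have hsx' : 0 ≤ Real.sin (dL - x) :=
      Real.sin_nonneg_of_nonneg_of_le_pi (by linarith) (by linarith [dL_lt])
    -- a side that leaves a corner with value `c > 0` and decreases
    have key : ∀ c d y : ℝ, 0 < c → c ≤ 1 → 0 ≤ d → 0 ≤ Real.sin y →
        c * Real.sin (dL - y) + (-(c + d)) * Real.sin y ≤ Real.sin dL := by
      intro c d y hc hc1 hd hy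
      rw [Real.sin_sub, cos_dL, sin_dL]
      have hcy := Real.cos_le_one y
      have h3 : c * (3 / 5 * Real.cos y - -4 / 5 * Real.sin y) + -(c + d) * Real.sin y =
          3 / 5 * (c * Real.cos y) - (1 / 5 * c + d) * Real.sin y := by ring
      rw [h3]
      have h4 : 0 ≤ (1 / 5 * c + d) * Real.sin y := by positivity
      have h5 : c * Real.cos y ≤ 1 := by nlinarith
      linarith
    fin_cases i
    · show F 0 * Real.sin (dL - x) + F (0 + 1) * Real.sin x ≤ Real.sin dL
      rw [r1, F0, F1, hid x]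
      have := Real.cos_le_one (x - t)
      nlinarith
    · show F 1 * Real.sin (dL - x) + F (1 + 1) * Real.sin x ≤ Real.sin dL
      rw [r3, F1, F2]
      have := key (Real.cos (dL - t)) (Real.cos t) x hc1 hb1 hc0.le hsx
      rw [add_comm (Real.cos (dL - t))] at this
      exact this
    · show F 2 * Real.sin (dL - x) + F (2 + 1) * Real.sin x ≤ Real.sin dL
      rw [r5, F2, F0]
      have := key (Real.cos t) (Real.cos (dL - t)) (dL - x) hc0 hb0 hc1.le hsx'
      rw [show dL - (dL - x) = x by ring] at this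
      linarith

theorem chot_infinite : (hotSet cyc (fun _ => 1)).Infinite := by
  have hπ := Real.pi_pos
  have ha := dL_gt
  have hb := dL_lt
  have hlt : dL - Real.pi / 2 < Real.pi / 2 := by linarith
  have hmem : ∀ t : Ioo (dL - Real.pi / 2) (Real.pi / 2), 0 < t.1 ∧ t.1 < dL := fun t =>
    ⟨by linarith [t.2.1], by linarith [t.2.2]⟩
  have hinf : (Set.univ : Set (Ioo (dL - Real.pi / 2) (Real.pi / 2))).Infinite := by
    rw [Set.infinite_univ_iff]
    exact (Set.Ioo_infinite hlt).to_subtype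
  have hinj : Function.Injective fun t : Ioo (dL - Real.pi / 2) (Real.pi / 2) =>
      (Sum.inr ⟨(0, t.1), hmem t⟩ : cyc.Point) := by
    intro s t hst
    have h1 := Sum.inr_injective hst
    have h2 := congrArg Subtype.val h1
    have h3 := congrArg Prod.snd h2
    exact Subtype.ext h3
  refine (hinf.image hinj.injOn).mono ?_
  rintro P ⟨t, -, rfl⟩
  exact cmem_hot t.2.1 t.2.2 (hmem t)

/-- The first corner. -/
noncomputable def cornerP : cyc.Point := Sum.inl 0

theorem corner_not_max {f : Fn (Fin 3) (Fin 3)}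
    (hf : IsEigenfunction cyc (fun _ => 1) 1 f) (hmax : ∀ Q : cyc.Point, f.val Q ≤ f.val cornerP) :
    False := by
  have hπ := Real.pi_pos
  have ha := dL_gt
  have hb := dL_lt
  have hf' : IsEigenfunction cyc (fun _ => 1) (1 ^ 2) f := by
    rw [one_pow]
    exact hf
  obtain ⟨h1, h4⟩ := canalysis one_pos le_rfl hf'
  simp only [one_mul] at h1 h4
  have hy : Real.pi - dL ∈ Icc 0 dL := ⟨by linarith, by linarith⟩
  have hy' : dL - (Real.pi - dL) ∈ Icc 0 dL := ⟨by linarith, by linarith⟩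
  have a1 := h1 0 _ hy
  have a2 := h1 2 _ hy'
  have r1 : (0 : Fin 3) + 1 = 1 := rfl
  have r2 : (0 : Fin 3) + 2 = 2 := rfl
  have r5 : (2 : Fin 3) + 1 = 0 := rfl
  rw [r1] at a1
  rw [r5, sub_sub_cancel] at a2
  have s1 : Real.sin (Real.pi - dL) = 3 / 5 := by rw [Real.sin_pi_sub, sin_dL]
  have s2 : Real.sin (dL - (Real.pi - dL)) = 24 / 25 := by
    rw [show dL - (Real.pi - dL) = 2 * dL - Real.pi by ring, Real.sin_sub_pi, Real.sin_two_mul,
      sin_dL, cos_dL]
    norm_num
  rw [s1, s2, sin_dL] at a1 a2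
  have b1 : f.edge 0 (Real.pi - dL) ≤ f.vert 0 :=
    hmax (Sum.inr ⟨(0, Real.pi - dL), by linarith, by show Real.pi - dL < dL; linarith⟩)
  have b2 : f.edge 2 (dL - (Real.pi - dL)) ≤ f.vert 0 :=
    hmax (Sum.inr ⟨(2, dL - (Real.pi - dL)), by linarith, by
      show dL - (Real.pi - dL) < dL; linarith⟩)
  have c1 : f.vert 1 ≤ f.vert 0 := hmax (Sum.inl 1)
  have c2 : f.vert 2 ≤ f.vert 0 := hmax (Sum.inl 2)
  have d3 := h4 0
  rw [r1, r2, cos_dL, sin_dL, mul_one] at d3
  have e0 : f.vert 0 ≤ 0 := by nlinarith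
  refine czero_of_corners one_pos le_rfl hf' fun i => ?_
  fin_cases i
  · show f.vert 0 = 0
    linarith
  · show f.vert 1 = 0
    linarith
  · show f.vert 2 = 0
    linarith

theorem chot_ne_univ : hotSet cyc (fun _ => 1) ≠ Set.univ := by
  intro h
  have hm : cornerP ∈ hotSet cyc (fun _ => 1) := by
    rw [h]
    exact Set.mem_univ _
  obtain ⟨μ, f, hμ, hf, hex⟩ := hm
  rw [csecond_iff hμ] at hf
  rcases hex with hex | hex
  · exact corner_not_max hf hex
  · refine corner_not_max (neg_eigen hf) fun Q => ?_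
    rw [neg_val, neg_val]
    exact neg_le_neg (hex Q)

end Pool.Agent.R228.QG
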