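import Pool.Agent.R228.QG.Basic

/-!
# A triangle with three short pendant edges
-/

set_option autoImplicit false

namespace Pool.Agent.R228.QG

open Set

/-- The length of the sides of the triangle. -/
noncomputable def aL : ℝ := Real.arccos (-7 / 25)

/-- The length of the pendant edges. -/
noncomputable def bL : ℝ := Real.arctan (11 / 24)

theorem cos_aL : Real.cos aL = -7 / 25 := Real.cos_arccos (by norm_num) (by norm_num)

theorem sin_aL : Real.sin aL = 24 / 25 := by
  rw [aL, Real.sin_arccos, show (1 : ℝ) - (-7 / 25) ^ 2 = (24 / 25) ^ 2 by norm_num,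
    Real.sqrt_sq (by norm_num)]

theorem aL_pos : 0 < aL := Real.arccos_pos.2 (by norm_num)

theorem aL_lt : aL < Real.pi := by
  refine lt_of_le_of_ne (Real.arccos_le_pi _) fun h => ?_
  have := cos_aL
  rw [h, Real.cos_pi] at this
  norm_num at this

theorem bL_pos : 0 < bL := Real.arctan_pos.2 (by norm_num)

theorem bL_lt : bL < Real.pi / 4 := by
  rw [← Real.arctan_one]
  exact Real.arctan_strictMono (by norm_num)

theorem cos_bL_pos : 0 < Real.cos bL := Real.cos_arctan_pos _

theorem sin_bL : Real.sin bL = 11 / 24 * Real.cos bL := by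
  have h := Real.tan_arctan (11 / 24)
  rw [Real.tan_eq_sin_div_cos] at h
  have h2 : Real.cos (Real.arctan (11 / 24)) ≠ 0 := cos_bL_pos.ne'
  rw [div_eq_iff h2] at h
  exact h

theorem aL_gt : Real.pi / 2 < aL := by
  by_contra h
  push Not at h
  have := Real.cos_nonneg_of_neg_pi_div_two_le_of_le (x := aL) (by linarith [aL_pos, Real.pi_pos]) h
  rw [cos_aL] at this
  norm_num at this

theorem aL_bL : aL + 2 * bL < Real.pi := by
  by_contra h
  push Not at h
  have h1 : Real.pi - 2 * bL ≤ aL := by linarith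
  have h2 : Real.cos aL ≤ Real.cos (Real.pi - 2 * bL) :=
    Real.cos_le_cos_of_nonneg_of_le_pi (by linarith [bL_lt, Real.pi_pos]) aL_lt.le h1
  rw [Real.cos_pi_sub, Real.cos_two_mul, cos_aL] at h2
  have h3 := Real.sin_sq_add_cos_sq bL
  rw [sin_bL] at h3
  nlinarith

/-- The triangle with vertices `inl 0`, `inl 1`, `inl 2`, sides `inl i` of length `aL` from `inl i`
to `inl (i + 1)`, and a pendant edge `inr i` of length `bL` from `inl i` to `inr i` for each `i`. -/
noncomputable def tri : MGraph (Fin 3 ⊕ Fin 3) (Fin 3 ⊕ Fin 3) where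
  src := fun e => match e with
    | Sum.inl i => Sum.inl i
    | Sum.inr i => Sum.inl i
  tgt := fun e => match e with
    | Sum.inl i => Sum.inl (i + 1)
    | Sum.inr i => Sum.inr i
  len := fun e => match e with
    | Sum.inl _ => aL
    | Sum.inr _ => bL
  len_pos := fun e => by
    rcases e with i | i
    · exact aL_pos
    · exact bL_pos

theorem tri_connected : tri.Connected := by
  refine ⟨⟨Sum.inl 0⟩, ?_⟩
  set R : Fin 3 ⊕ Fin 3 → Fin 3 ⊕ Fin 3 → Prop :=
    fun a b => ∃ e, (tri.src e = a ∧ tri.tgt e = b) ∨ (tri.src e = b ∧ tri.tgt e = a) with hR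
  have hsymm : ∀ a b, R a b → R b a := by
    rintro a b ⟨e, h | h⟩
    · exact ⟨e, Or.inr h⟩
    · exact ⟨e, Or.inl h⟩
  have hin : ∀ i : Fin 3, Relation.ReflTransGen R (Sum.inl 0) (Sum.inl i) := by
    intro i
    fin_cases i
    · exact Relation.ReflTransGen.refl
    · exact Relation.ReflTransGen.single ⟨Sum.inl 0, Or.inl ⟨rfl, rfl⟩⟩
    · exact Relation.ReflTransGen.single ⟨Sum.inl 2, Or.inr ⟨rfl, rfl⟩⟩
  have hall : ∀ v, Relation.ReflTransGen R (Sum.inl 0) v := by
    rintro (i | i)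
    · exact hin i
    · exact (hin i).tail ⟨Sum.inr i, Or.inl ⟨rfl, rfl⟩⟩
  intro v w
  have : Std.Symm R := ⟨hsymm⟩
  exact (Std.Symm.symm _ _ (hall v)).trans (hall w)

theorem tri_bridge : tri.IsBridge (Sum.inr 0) := by
  refine ⟨Sum.inl 0, Sum.inr 0, fun h => ?_⟩
  have key : ∀ v, Relation.ReflTransGen (fun a b => ∃ e, e ≠ (Sum.inr 0 : Fin 3 ⊕ Fin 3) ∧
      ((tri.src e = a ∧ tri.tgt e = b) ∨ (tri.src e = b ∧ tri.tgt e = a))) (Sum.inl 0) v →
      v ≠ Sum.inr 0 := by
    intro v hv
    induction hv with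
    | refl => simp
    | @tail b c _ hbc _ =>
      obtain ⟨e, he, h | h⟩ := hbc
      · rw [← h.2]
        rcases e with i | i
        · simp [tri]
        · intro h3
          apply he
          simpa [tri] using h3
      · rw [← h.1]
        rcases e with i | i
        · simp [tri]
        · simp [tri]
  exact key _ h rfl

theorem sum_src (v : Fin 3 ⊕ Fin 3) (G : Fin 3 ⊕ Fin 3 → ℝ) :
    ∑ e with tri.src e = v, G e = (∑ i : Fin 3, if (Sum.inl i : Fin 3 ⊕ Fin 3) = v then
      G (Sum.inl i) else 0) + ∑ i : Fin 3, if (Sum.inl i : Fin 3 ⊕ Fin 3) = v then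
      G (Sum.inr i) else 0 := by
  rw [Finset.sum_filter, Fintype.sum_sum_type]
  rfl

theorem sum_tgt (v : Fin 3 ⊕ Fin 3) (G : Fin 3 ⊕ Fin 3 → ℝ) :
    ∑ e with tri.tgt e = v, G e = (∑ i : Fin 3, if (Sum.inl (i + 1) : Fin 3 ⊕ Fin 3) = v then
      G (Sum.inl i) else 0) + ∑ i : Fin 3, if (Sum.inr i : Fin 3 ⊕ Fin 3) = v then
      G (Sum.inr i) else 0 := by
  rw [Finset.sum_filter, Fintype.sum_sum_type]
  rfl

section analysis

variable {k : ℝ} {f : Fn (Fin 3 ⊕ Fin 3) (Fin 3 ⊕ Fin 3)}

/-- The eigenfunctions for small wave numbers. -/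
theorem analysis (hk : 0 < k) (hk1 : k ≤ 1) (hf : IsEigenfunction tri (fun _ => 0) (k ^ 2) f) :
    (∀ i, ∀ x ∈ Icc 0 aL, f.edge (Sum.inl i) x * Real.sin (k * aL) =
      f.vert (Sum.inl i) * Real.sin (k * (aL - x)) + f.vert (Sum.inl (i + 1)) * Real.sin (k * x)) ∧
    (∀ i, ∀ x ∈ Icc 0 bL, f.edge (Sum.inr i) x * Real.cos (k * bL) =
      f.vert (Sum.inl i) * Real.cos (k * (bL - x))) ∧
    (∀ i, f.vert (Sum.inr i) * Real.cos (k * bL) = f.vert (Sum.inl i)) ∧
    (∀ i, Real.cos (k * bL) * (f.vert (Sum.inl (i + 1)) + f.vert (Sum.inl (i + 2))) =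
      (2 * Real.cos (k * aL) * Real.cos (k * bL) - Real.sin (k * aL) * Real.sin (k * bL)) *
        f.vert (Sum.inl i)) := by
  obtain ⟨-, g, h0, h1, hd, hg, hK⟩ := hf
  have hsa : 0 < Real.sin (k * aL) := by
    apply Real.sin_pos_of_pos_of_lt_pi
    · exact mul_pos hk aL_pos
    · nlinarith [aL_lt, aL_pos]
  have hcb : 0 < Real.cos (k * bL) := by
    apply Real.cos_pos_of_mem_Ioo
    constructor
    · nlinarith [bL_pos, Real.pi_pos]
    · nlinarith [bL_pos, bL_lt, Real.pi_pos]
  have hain : aL ∈ Icc (0 : ℝ) aL := ⟨aL_pos.le, le_rfl⟩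
  have hbin : bL ∈ Icc (0 : ℝ) bL := ⟨bL_pos.le, le_rfl⟩
  have sol1 : ∀ i, ∀ x ∈ Icc 0 aL, _ := fun i x hx =>
    edge_sol (f := f.edge (Sum.inl i)) (g := g (Sum.inl i)) (L := aL) (k := k) hk
      (hd (Sum.inl i)) (hg (Sum.inl i)) (x := x) hx
  have sol2 : ∀ i, ∀ x ∈ Icc 0 bL, _ := fun i x hx =>
    edge_sol (f := f.edge (Sum.inr i)) (g := g (Sum.inr i)) (L := bL) (k := k) hk
      (hd (Sum.inr i)) (hg (Sum.inr i)) (x := x) hx
  have v0 : ∀ i, f.edge (Sum.inl i) 0 = f.vert (Sum.inl i) := fun i => h0 (Sum.inl i)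
  have v1 : ∀ i, f.edge (Sum.inl i) aL = f.vert (Sum.inl (i + 1)) := fun i => h1 (Sum.inl i)
  have w0 : ∀ i, f.edge (Sum.inr i) 0 = f.vert (Sum.inl i) := fun i => h0 (Sum.inr i)
  have w1 : ∀ i, f.edge (Sum.inr i) bL = f.vert (Sum.inr i) := fun i => h1 (Sum.inr i)
  -- Kirchhoff at the outer vertices
  have K1 : ∀ i, g (Sum.inr i) bL = 0 := by
    intro i
    have := hK (Sum.inr i)
    rw [zero_mul, sum_src, sum_tgt, Fin.sum_univ_three, Fin.sum_univ_three, Fin.sum_univ_three,
      Fin.sum_univ_three] at this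
    fin_cases i <;> simp at this <;> exact this
  -- Kirchhoff at the inner vertices
  have K2 : ∀ i, g (Sum.inl i) 0 + g (Sum.inr i) 0 - g (Sum.inl (i + 2)) aL = 0 := by
    intro i
    have := hK (Sum.inl i)
    rw [zero_mul, sum_src, sum_tgt, Fin.sum_univ_three, Fin.sum_univ_three, Fin.sum_univ_three,
      Fin.sum_univ_three] at this
    fin_cases i <;> simp at this <;> exact this
  have G0 : ∀ i, g (Sum.inl i) 0 * Real.sin (k * aL) =
      k * (f.vert (Sum.inl (i + 1)) - f.vert (Sum.inl i) * Real.cos (k * aL)) := by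
    intro i
    have := (sol1 i aL hain).1
    rw [v1, v0] at this
    rw [this]
    field_simp
    ring
  have G1 : ∀ i, g (Sum.inl i) aL * Real.sin (k * aL) =
      k * (f.vert (Sum.inl (i + 1)) * Real.cos (k * aL) - f.vert (Sum.inl i)) := by
    intro i
    have := (sol1 i aL hain).2
    rw [v0] at this
    rw [this]
    have h3 := G0 i
    have h4 := Real.sin_sq_add_cos_sq (k * aL)
    linear_combination (Real.cos (k * aL)) * h3 - k * f.vert (Sum.inl i) * h4
  have P0 : ∀ i, g (Sum.inr i) 0 * Real.cos (k * bL) =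
      k * f.vert (Sum.inl i) * Real.sin (k * bL) := by
    intro i
    have := (sol2 i bL hbin).2
    rw [w0, K1] at this
    linarith
  refine ⟨?_, ?_, ?_, ?_⟩
  · intro i x hx
    have h3 := (sol1 i x hx).1
    have h4 := G0 i
    rw [v0] at h3
    rw [h3, mul_sub, Real.sin_sub]
    field_simp
    linear_combination (Real.sin (k * x)) * h4
  · intro i x hx
    have h3 := (sol2 i x hx).1
    have h4 := P0 i
    rw [w0] at h3
    rw [h3, mul_sub, Real.cos_sub]
    field_simp
    linear_combination (Real.sin (k * x)) * h4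
  · intro i
    have h3 := (sol2 i bL hbin).1
    have h4 := P0 i
    rw [w0, w1] at h3
    rw [h3]
    have h5 := Real.sin_sq_add_cos_sq (k * bL)
    field_simp
    linear_combination (Real.sin (k * bL)) * h4 + k * f.vert (Sum.inl i) * h5
  · intro i
    have h3 := K2 i
    have h4 := G0 i
    have h5 := G1 (i + 2)
    have h6 := P0 i
    have e : i + 2 + 1 = i := by
      fin_cases i <;> rfl
    rw [e] at h5
    have h7 : k * (Real.cos (k * bL) * (f.vert (Sum.inl (i + 1)) + f.vert (Sum.inl (i + 2))) -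
      (2 * Real.cos (k * aL) * Real.cos (k * bL) - Real.sin (k * aL) * Real.sin (k * bL)) *
        f.vert (Sum.inl i)) = 0 := by
      linear_combination (Real.sin (k * aL) * Real.cos (k * bL)) * h3 - Real.cos (k * bL) * h4 -
        Real.sin (k * aL) * h6 + Real.cos (k * bL) * h5
    have h8 := (mul_eq_zero.1 h7).resolve_left hk.ne'
    linarith

/-- The function is zero when it vanishes at the corners. -/
theorem zero_of_corners (hk : 0 < k) (hk1 : k ≤ 1)
    (hf : IsEigenfunction tri (fun _ => 0) (k ^ 2) f) (hz : ∀ i, f.vert (Sum.inl i) = 0) : False := by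
  obtain ⟨h1, h2, h3, -⟩ := analysis hk hk1 hf
  have hsa : 0 < Real.sin (k * aL) := by
    apply Real.sin_pos_of_pos_of_lt_pi
    · exact mul_pos hk aL_pos
    · nlinarith [aL_lt, aL_pos]
  have hcb : 0 < Real.cos (k * bL) := by
    apply Real.cos_pos_of_mem_Ioo
    constructor
    · nlinarith [bL_pos, Real.pi_pos]
    · nlinarith [bL_pos, bL_lt, Real.pi_pos]
  obtain ⟨⟨P, hP⟩, -⟩ := hf
  apply hP
  rcases P with (i | i) | ⟨⟨e | e, x⟩, hx⟩
  · exact hz i
  · have := h3 i
    rw [hz] at this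
    exact (mul_eq_zero.1 this).resolve_right hcb.ne'
  · have := h1 e x ⟨hx.1.le, hx.2.le⟩
    rw [hz, hz, zero_mul, zero_mul, add_zero] at this
    exact (mul_eq_zero.1 this).resolve_right hsa.ne'
  · have := h2 e x ⟨hx.1.le, hx.2.le⟩
    rw [hz, zero_mul] at this
    exact (mul_eq_zero.1 this).resolve_right hcb.ne'

/-- The transfer function is strictly between `-1` and `2`, in normalised form. -/
theorem T_lt (hk : 0 < k) (hk1 : k ≤ 1) :
    2 * Real.cos (k * aL) * Real.cos (k * bL) - Real.sin (k * aL) * Real.sin (k * bL) <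
      2 * Real.cos (k * bL) := by
  have hsa : 0 < Real.sin (k * aL) := by
    apply Real.sin_pos_of_pos_of_lt_pi
    · exact mul_pos hk aL_pos
    · nlinarith [aL_lt, aL_pos]
  have hsb : 0 < Real.sin (k * bL) := by
    apply Real.sin_pos_of_pos_of_lt_pi
    · exact mul_pos hk bL_pos
    · nlinarith [bL_lt, bL_pos, Real.pi_pos]
  have hcb : 0 < Real.cos (k * bL) := by
    apply Real.cos_pos_of_mem_Ioo
    constructor
    · nlinarith [bL_pos, Real.pi_pos]
    · nlinarith [bL_pos, bL_lt, Real.pi_pos]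
  have := Real.cos_le_one (k * aL)
  nlinarith [mul_pos hsa hsb]

theorem T_gt (hk : 0 < k) (hk1 : k < 1) :
    -Real.cos (k * bL) < 2 * Real.cos (k * aL) * Real.cos (k * bL) -
      Real.sin (k * aL) * Real.sin (k * bL) := by
  have ha := aL_pos
  have hb := bL_pos
  have hab := aL_bL
  have hcb := cos_bL_pos
  have hcb' : 0 < Real.cos (k * bL) := by
    apply Real.cos_pos_of_mem_Ioo
    constructor
    · nlinarith [bL_pos, Real.pi_pos]
    · nlinarith [bL_pos, bL_lt, Real.pi_pos]
  have h1 : Real.cos aL < Real.cos (k * aL) :=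
    Real.cos_lt_cos_of_nonneg_of_le_pi (by positivity) aL_lt.le (by nlinarith)
  have h2 : Real.cos (aL + bL + k * bL) < Real.cos (k * (aL + bL) + bL) :=
    Real.cos_lt_cos_of_nonneg_of_le_pi (by positivity) (by nlinarith) (by nlinarith)
  have h3 : Real.cos (aL + bL - k * bL) < Real.cos (k * (aL + bL) - bL) := by
    rw [← Real.cos_abs (k * (aL + bL) - bL)]
    refine Real.cos_lt_cos_of_nonneg_of_le_pi (abs_nonneg _) (by nlinarith) ?_
    rw [abs_lt]
    constructor <;> nlinarith
  have e1 : Real.cos (k * (aL + bL)) * Real.cos bL * 2 =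
      Real.cos (k * (aL + bL) + bL) + Real.cos (k * (aL + bL) - bL) := by
    rw [Real.cos_add, Real.cos_sub]
    ring
  have e2 : Real.cos (aL + bL) * Real.cos (k * bL) * 2 =
      Real.cos (aL + bL + k * bL) + Real.cos (aL + bL - k * bL) := by
    rw [Real.cos_add (aL + bL), Real.cos_sub (aL + bL)]
    ring
  have h4 : Real.cos (aL + bL) * Real.cos (k * bL) < Real.cos (k * (aL + bL)) * Real.cos bL := by
    linarith
  have e3 : Real.cos (k * (aL + bL)) = Real.cos (k * aL) * Real.cos (k * bL) -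
      Real.sin (k * aL) * Real.sin (k * bL) := by
    rw [mul_add, Real.cos_add]
  have e4 : Real.cos (aL + bL) = (-7 / 25 - 24 / 25 * (11 / 24)) * Real.cos bL := by
    rw [Real.cos_add, cos_aL, sin_aL, sin_bL]
    ring
  rw [e4] at h4
  rw [e3] at h4
  have h5 : (-7 / 25 - 24 / 25 * (11 / 24)) * Real.cos (k * bL) <
      Real.cos (k * aL) * Real.cos (k * bL) - Real.sin (k * aL) * Real.sin (k * bL) := by
    have h6 : Real.cos bL * ((-7 / 25 - 24 / 25 * (11 / 24)) * Real.cos (k * bL)) <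
        Real.cos bL * (Real.cos (k * aL) * Real.cos (k * bL) -
          Real.sin (k * aL) * Real.sin (k * bL)) := by nlinarith
    exact lt_of_mul_lt_mul_left h6 hcb.le
  rw [cos_aL] at h1
  nlinarith

/-- There is no eigenvalue between `0` and `1`. -/
theorem no_small (hk : 0 < k) (hk1 : k < 1) (hf : IsEigenfunction tri (fun _ => 0) (k ^ 2) f) :
    False := by
  obtain ⟨-, -, -, h4⟩ := analysis hk hk1.le hf
  have hT1 := T_lt hk hk1.le
  have hT2 := T_gt hk hk1
  set T := 2 * Real.cos (k * aL) * Real.cos (k * bL) - Real.sin (k * aL) * Real.sin (k * bL)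
  set c := Real.cos (k * bL)
  have e0 := h4 0
  have e1 := h4 1
  have e2 := h4 2
  have r1 : (0 : Fin 3) + 1 = 1 := rfl
  have r2 : (0 : Fin 3) + 2 = 2 := rfl
  have r3 : (1 : Fin 3) + 1 = 2 := rfl
  have r4 : (1 : Fin 3) + 2 = 0 := rfl
  have r5 : (2 : Fin 3) + 1 = 0 := rfl
  have r6 : (2 : Fin 3) + 2 = 1 := rfl
  rw [r1, r2] at e0
  rw [r3, r4] at e1
  rw [r5, r6] at e2
  set F0 := f.vert (Sum.inl 0)
  set F1 := f.vert (Sum.inl 1)
  set F2 := f.vert (Sum.inl 2)
  have hS : (T - 2 * c) * (F0 + F1 + F2) = 0 := by linear_combination -e0 - e1 - e2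
  have hS0 : F0 + F1 + F2 = 0 := (mul_eq_zero.1 hS).resolve_left (by linarith)
  have z0 : F0 = 0 := by
    have : (T + c) * F0 = 0 := by linear_combination -e0 + c * hS0
    exact (mul_eq_zero.1 this).resolve_left (by linarith)
  have z1 : F1 = 0 := by
    have : (T + c) * F1 = 0 := by linear_combination -e1 + c * hS0
    exact (mul_eq_zero.1 this).resolve_left (by linarith)
  have z2 : F2 = 0 := by
    have : (T + c) * F2 = 0 := by linear_combination -e2 + c * hS0
    exact (mul_eq_zero.1 this).resolve_left (by linarith)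
  refine zero_of_corners hk hk1.le hf fun i => ?_
  fin_cases i
  · exact z0
  · exact z1
  · exact z2

end analysis

end Pool.Agent.R228.QG
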