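import Pool.Agent.R228.QG.Tri

/-!
# The hot spots of the triangle with three short pendant edges
-/

set_option autoImplicit false

namespace Pool.Agent.R228.QG

open Set

/-- The eigenfunction with the values `F` at the corners. -/
noncomputable def triFn (F : Fin 3 → ℝ) : Fn (Fin 3 ⊕ Fin 3) (Fin 3 ⊕ Fin 3) where
  vert := fun v => match v with
    | Sum.inl i => F i
    | Sum.inr i => F i / Real.cos bL
  edge := fun e => match e with
    | Sum.inl i => fun x => (F i * Real.sin (aL - x) + F (i + 1) * Real.sin x) / Real.sin aL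
    | Sum.inr i => fun x => F i * Real.cos (bL - x) / Real.cos bL

theorem triFn_eigen (F : Fin 3 → ℝ) (hS : F 0 + F 1 + F 2 = 0) (hne : ∃ i, F i ≠ 0) :
    IsEigenfunction tri (fun _ => 0) 1 (triFn F) := by
  have hcb := cos_bL_pos
  have hsa : Real.sin aL ≠ 0 := by
    rw [sin_aL]
    norm_num
  refine ⟨?_, fun e => match e with
    | Sum.inl i => fun x => (-(F i * Real.cos (aL - x)) + F (i + 1) * Real.cos x) / Real.sin aL
    | Sum.inr i => fun x => F i * Real.sin (bL - x) / Real.cos bL, ?_, ?_, ?_, ?_, ?_⟩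
  · obtain ⟨i, hi⟩ := hne
    exact ⟨Sum.inl (Sum.inl i), hi⟩
  · rintro (i | i)
    · show (F i * Real.sin (aL - 0) + F (i + 1) * Real.sin 0) / Real.sin aL = F i
      rw [sub_zero, Real.sin_zero]
      field_simp
      ring
    · show F i * Real.cos (bL - 0) / Real.cos bL = F i
      rw [sub_zero]
      field_simp
  · rintro (i | i)
    · show (F i * Real.sin (aL - aL) + F (i + 1) * Real.sin aL) / Real.sin aL = F (i + 1)
      rw [sub_self, Real.sin_zero]
      field_simp
      ring
    · show F i * Real.cos (bL - bL) / Real.cos bL = F i / Real.cos bL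
      rw [sub_self, Real.cos_zero, mul_one]
  · have hs : ∀ (c x : ℝ), HasDerivAt (fun x => Real.sin (c - x)) (-Real.cos (c - x)) x := by
      intro c x
      have h1 : HasDerivAt (fun x : ℝ => c - x) (-1) x := by
        simpa using (hasDerivAt_id x).const_sub c
      have h2 := (Real.hasDerivAt_sin (c - x)).comp x h1
      have e : Real.cos (c - x) * -1 = -Real.cos (c - x) := by ring
      rw [e] at h2
      exact h2
    have hc : ∀ (c x : ℝ), HasDerivAt (fun x => Real.cos (c - x)) (Real.sin (c - x)) x := by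
      intro c x
      have h1 : HasDerivAt (fun x : ℝ => c - x) (-1) x := by
        simpa using (hasDerivAt_id x).const_sub c
      have h2 := (Real.hasDerivAt_cos (c - x)).comp x h1
      have e : -Real.sin (c - x) * -1 = Real.sin (c - x) := by ring
      rw [e] at h2
      exact h2
    rintro (i | i) x -
    · have := ((((hs aL x).const_mul (F i)).fun_add
        ((Real.hasDerivAt_sin x).const_mul (F (i + 1)))).div_const (Real.sin aL)).hasDerivWithinAt
          (s := Icc 0 (tri.len (Sum.inl i)))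
      refine this.congr_deriv ?_
      ring
    · have := (((hc bL x).const_mul (F i)).div_const (Real.cos bL)).hasDerivWithinAt
          (s := Icc 0 (tri.len (Sum.inr i)))
      exact this
  · have hs : ∀ (c x : ℝ), HasDerivAt (fun x => Real.sin (c - x)) (-Real.cos (c - x)) x := by
      intro c x
      have h1 : HasDerivAt (fun x : ℝ => c - x) (-1) x := by
        simpa using (hasDerivAt_id x).const_sub c
      have h2 := (Real.hasDerivAt_sin (c - x)).comp x h1
      have e : Real.cos (c - x) * -1 = -Real.cos (c - x) := by ring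
      rw [e] at h2
      exact h2
    have hc : ∀ (c x : ℝ), HasDerivAt (fun x => Real.cos (c - x)) (Real.sin (c - x)) x := by
      intro c x
      have h1 : HasDerivAt (fun x : ℝ => c - x) (-1) x := by
        simpa using (hasDerivAt_id x).const_sub c
      have h2 := (Real.hasDerivAt_cos (c - x)).comp x h1
      have e : -Real.sin (c - x) * -1 = Real.sin (c - x) := by ring
      rw [e] at h2
      exact h2
    rintro (i | i) x -
    · have := ((((hc aL x).const_mul (F i)).fun_neg.fun_add
        ((Real.hasDerivAt_cos x).const_mul (F (i + 1)))).div_const (Real.sin aL)).hasDerivWithinAt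
          (s := Icc 0 (tri.len (Sum.inl i)))
      refine this.congr_deriv ?_
      show _ = -(1 * ((F i * Real.sin (aL - x) + F (i + 1) * Real.sin x) / Real.sin aL))
      ring
    · have := (((hs bL x).const_mul (F i)).div_const (Real.cos bL)).hasDerivWithinAt
          (s := Icc 0 (tri.len (Sum.inr i)))
      refine this.congr_deriv ?_
      show _ = -(1 * (F i * Real.cos (bL - x) / Real.cos bL))
      ring
  · intro v
    rw [zero_mul, sum_src, sum_tgt, Fin.sum_univ_three, Fin.sum_univ_three, Fin.sum_univ_three,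
      Fin.sum_univ_three]
    have hl1 : ∀ i, tri.len (Sum.inl i) = aL := fun i => rfl
    have hl2 : ∀ i, tri.len (Sum.inr i) = bL := fun i => rfl
    have r3 : (1 : Fin 3) + 1 = 2 := rfl
    have r5 : (2 : Fin 3) + 1 = 0 := rfl
    have hF2 : F 2 = -F 0 - F 1 := by linarith
    rcases v with i | i
    · fin_cases i <;> simp [hl1, r3, r5, cos_aL, sin_aL, sin_bL, hF2] <;> field_simp <;> ring
    · fin_cases i <;> simp [hl2]

theorem eigen_zero : IsEigenvalue tri (fun _ => 0) 0 := by
  refine ⟨⟨fun _ => 1, fun _ _ => 1⟩, ⟨Sum.inl (Sum.inl 0), one_ne_zero⟩, fun _ _ => 0,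
    fun _ => rfl, fun _ => rfl, fun e x _ => hasDerivWithinAt_const _ _ _, fun e x _ => ?_,
    fun v => ?_⟩
  · rw [zero_mul, neg_zero]
    exact hasDerivWithinAt_const _ _ _
  · simp

theorem tri_deg (v : Fin 3 ⊕ Fin 3) : (∃ e, tri.src e = v) ∨ ∃ e, tri.tgt e = v := by
  rcases v with i | i
  · exact Or.inl ⟨Sum.inl i, rfl⟩
  · exact Or.inr ⟨Sum.inr i, rfl⟩

theorem least_zero : IsLeast {lam | IsEigenvalue tri (fun _ => 0) lam} 0 :=
  ⟨eigen_zero, fun _ ⟨_, hf⟩ => nonneg_of_isEigenvalue (fun _ => le_rfl) hf tri_deg⟩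

theorem second_one : IsSecondEigenvalue tri (fun _ => 0) 1 := by
  refine ⟨0, least_zero, ⟨⟨triFn ![1, -1, 0], triFn_eigen _ (by simp) ⟨0, by simp⟩⟩,
    one_pos⟩, ?_⟩
  rintro lam ⟨⟨f, hf⟩, hlam⟩
  by_contra h
  push Not at h
  have hk : 0 < Real.sqrt lam := Real.sqrt_pos.2 hlam
  have hk1 : Real.sqrt lam < 1 := by
    rw [Real.sqrt_lt' one_pos]
    simpa using h
  refine no_small (f := f) hk hk1 ?_
  rw [Real.sq_sqrt hlam.le]
  exact hf

theorem second_iff {μ : ℝ} (h : IsSecondEigenvalue tri (fun _ => 0) μ) : μ = 1 := by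
  obtain ⟨l, h1, h2⟩ := h
  obtain ⟨l', h1', h2'⟩ := second_one
  have : l = l' := h1.unique h1'
  subst this
  exact h2.unique h2'

theorem aL_sub_bL : aL - bL < Real.pi / 2 := by
  by_contra h
  push Not at h
  have hc : Real.cos (aL - bL) ≤ 0 :=
    Real.cos_nonpos_of_pi_div_two_le_of_le h (by linarith [aL_lt, bL_pos, Real.pi_pos])
  rw [Real.cos_sub, cos_aL, sin_aL, sin_bL] at hc
  have := cos_bL_pos
  nlinarith

/-- The points in the middle of the first side are hot spots. -/
theorem mem_hot {t : ℝ} (h0 : bL ≤ t) (h1 : t ≤ aL - bL) (ht : 0 < t ∧ t < aL) :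
    (Sum.inr ⟨(Sum.inl 0, t), ht⟩ : tri.Point) ∈ hotSet tri (fun _ => 0) := by
  have hπ := Real.pi_pos
  have hb := bL_pos
  have hb4 := bL_lt
  have hab := aL_bL
  have ha := aL_gt
  have hcb := cos_bL_pos
  have hab2 := aL_sub_bL
  have hsa : 0 < Real.sin aL := by
    rw [sin_aL]
    norm_num
  have hc0 : 0 < Real.cos t := Real.cos_pos_of_mem_Ioo ⟨by linarith, by linarith⟩
  have hc1 : 0 < Real.cos (aL - t) := Real.cos_pos_of_mem_Ioo ⟨by linarith, by linarith⟩
  have hb0 : Real.cos t ≤ Real.cos bL :=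
    Real.cos_le_cos_of_nonneg_of_le_pi hb.le (by linarith) h0
  have hb1 : Real.cos (aL - t) ≤ Real.cos bL :=
    Real.cos_le_cos_of_nonneg_of_le_pi hb.le (by linarith) (by linarith)
  have hb2 : Real.cos bL ≤ 1 := Real.cos_le_one _
  set F : Fin 3 → ℝ := ![Real.cos t, Real.cos (aL - t), -(Real.cos t + Real.cos (aL - t))] with hF
  have F0 : F 0 = Real.cos t := rfl
  have F1 : F 1 = Real.cos (aL - t) := rfl
  have F2 : F 2 = -(Real.cos t + Real.cos (aL - t)) := rfl
  have r3 : (1 : Fin 3) + 1 = 2 := rfl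
  have r5 : (2 : Fin 3) + 1 = 0 := rfl
  have r1 : (0 : Fin 3) + 1 = 1 := rfl
  have hFle : ∀ i, F i ≤ Real.cos bL := by
    intro i
    fin_cases i
    · exact hb0
    · exact hb1
    · show -(Real.cos t + Real.cos (aL - t)) ≤ Real.cos bL
      linarith
  have hid : ∀ x, Real.cos t * Real.sin (aL - x) + Real.cos (aL - t) * Real.sin x =
      Real.sin aL * Real.cos (x - t) := by
    intro x
    rw [Real.sin_sub, Real.cos_sub, Real.cos_sub]
    have := Real.sin_sq_add_cos_sq t
    ring
  refine ⟨1, triFn F, second_one, triFn_eigen F (by rw [F0, F1, F2]; ring) ⟨0, hc0.ne'⟩,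
    Or.inl fun Q => ?_⟩
  have hval : (triFn F).val (Sum.inr ⟨(Sum.inl 0, t), ht⟩ : tri.Point) = 1 := by
    show (F 0 * Real.sin (aL - t) + F (0 + 1) * Real.sin t) / Real.sin aL = 1
    rw [r1, F0, F1, div_eq_one_iff_eq hsa.ne', hid t, sub_self, Real.cos_zero, mul_one]
  rw [hval]
  rcases Q with (i | i) | ⟨⟨i | i, x⟩, hx⟩
  · exact (hFle i).trans hb2
  · show F i / Real.cos bL ≤ 1
    rw [div_le_one hcb]
    exact hFle i
  · have hx0 : 0 < x := hx.1
    have hxa : x < aL := hx.2
    show (F i * Real.sin (aL - x) + F (i + 1) * Real.sin x) / Real.sin aL ≤ 1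
    rw [div_le_one hsa]
    have hsx : 0 ≤ Real.sin x := Real.sin_nonneg_of_nonneg_of_le_pi hx0.le (by linarith [aL_lt])
    have hsx' : 0 ≤ Real.sin (aL - x) :=
      Real.sin_nonneg_of_nonneg_of_le_pi (by linarith) (by linarith [aL_lt])
    -- a side that leaves a corner with value `c > 0` and decreases
    have key : ∀ c d y : ℝ, 0 < c → c ≤ 1 → 0 ≤ d → 0 ≤ Real.sin y →
        c * Real.sin (aL - y) + (-(c + d)) * Real.sin y ≤ Real.sin aL := by
      intro c d y hc hc1 hd hy
      rw [Real.sin_sub, cos_aL, sin_aL]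
      have hcy := Real.cos_le_one y
      have h3 : c * (24 / 25 * Real.cos y - -7 / 25 * Real.sin y) + -(c + d) * Real.sin y =
          24 / 25 * (c * Real.cos y) - (18 / 25 * c + d) * Real.sin y := by ring
      rw [h3]
      have h4 : 0 ≤ (18 / 25 * c + d) * Real.sin y := by positivity
      have h5 : c * Real.cos y ≤ 1 := by nlinarith
      linarith
    fin_cases i
    · show F 0 * Real.sin (aL - x) + F (0 + 1) * Real.sin x ≤ Real.sin aL
      rw [r1, F0, F1, hid x]
      have := Real.cos_le_one (x - t)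
      nlinarith
    · show F 1 * Real.sin (aL - x) + F (1 + 1) * Real.sin x ≤ Real.sin aL
      rw [r3, F1, F2]
      have := key (Real.cos (aL - t)) (Real.cos t) x hc1 (hb1.trans hb2) hc0.le hsx
      rw [add_comm (Real.cos (aL - t))] at this
      exact this
    · show F 2 * Real.sin (aL - x) + F (2 + 1) * Real.sin x ≤ Real.sin aL
      rw [r5, F2, F0]
      have := key (Real.cos t) (Real.cos (aL - t)) (aL - x) hc0 (hb0.trans hb2) hc1.le hsx'
      rw [show aL - (aL - x) = x by ring] at this
      linarith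
  · have hx0 : 0 < x := hx.1
    have hxb : x < bL := hx.2
    show F i * Real.cos (bL - x) / Real.cos bL ≤ 1
    rw [div_le_one hcb]
    have h3 : 0 ≤ Real.cos (bL - x) :=
      Real.cos_nonneg_of_neg_pi_div_two_le_of_le (by linarith) (by linarith)
    have h4 := Real.cos_le_one (bL - x)
    have := hFle i
    nlinarith

theorem hot_infinite : (hotSet tri (fun _ => 0)).Infinite := by
  have hb := bL_pos
  have hb4 := bL_lt
  have ha := aL_gt
  have hlt : bL < aL - bL := by linarith
  have hmem : ∀ t : Icc bL (aL - bL), 0 < t.1 ∧ t.1 < aL := fun t =>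
    ⟨by linarith [t.2.1], by linarith [t.2.2]⟩
  have hinf : (Set.univ : Set (Icc bL (aL - bL))).Infinite := by
    rw [Set.infinite_univ_iff]
    exact (Set.Icc_infinite hlt).to_subtype
  have hinj : Function.Injective fun t : Icc bL (aL - bL) =>
      (Sum.inr ⟨(Sum.inl 0, t.1), hmem t⟩ : tri.Point) := by
    intro s t hst
    have h1 := Sum.inr_injective hst
    have h2 := congrArg Subtype.val h1
    have h3 := congrArg Prod.snd h2
    exact Subtype.ext h3
  refine (hinf.image hinj.injOn).mono ?_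
  rintro P ⟨t, -, rfl⟩
  exact mem_hot t.2.1 t.2.2 (hmem t)

/-- The negative of an eigenfunction. -/
theorem neg_eigen {V E : Type} [Fintype E] [DecidableEq V] {Γ : MGraph V E} {α : V → ℝ} {lam : ℝ}
    {f : Fn V E} (h : IsEigenfunction Γ α lam f) :
    IsEigenfunction Γ α lam ⟨fun v => -f.vert v, fun e x => -f.edge e x⟩ := by
  obtain ⟨⟨P, hP⟩, g, h0, h1, hf, hg, hK⟩ := h
  refine ⟨⟨P, ?_⟩, fun e x => -g e x, fun e => ?_, fun e => ?_, fun e x hx => (hf e x hx).fun_neg,
    fun e x hx => ?_, fun v => ?_⟩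
  · rcases P with v | p
    · exact neg_ne_zero.2 hP
    · exact neg_ne_zero.2 hP
  · show -f.edge e 0 = -f.vert (Γ.src e)
    rw [h0]
  · show -f.edge e (Γ.len e) = -f.vert (Γ.tgt e)
    rw [h1]
  · refine (hg e x hx).fun_neg.congr_deriv ?_
    ring
  · have := hK v
    simp only [Finset.sum_neg_distrib, mul_neg]
    linarith

theorem neg_val {V E : Type} {Γ : MGraph V E} (f : Fn V E) (P : Γ.Point) :
    (⟨fun v => -f.vert v, fun e x => -f.edge e x⟩ : Fn V E).val P = -f.val P := by
  rcases P with v | p <;> rfl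

/-- The middle of a pendant edge. -/
noncomputable def midP : tri.Point :=
  Sum.inr ⟨(Sum.inr 0, bL / 2), by
    have := bL_pos
    exact ⟨by positivity, by show bL / 2 < bL; linarith⟩⟩

theorem mid_not_max {f : Fn (Fin 3 ⊕ Fin 3) (Fin 3 ⊕ Fin 3)}
    (hf : IsEigenfunction tri (fun _ => 0) 1 f) (hmax : ∀ Q : tri.Point, f.val Q ≤ f.val midP) :
    False := by
  have hπ := Real.pi_pos
  have hb := bL_pos
  have hb4 := bL_lt
  have hcb := cos_bL_pos
  have hf' : IsEigenfunction tri (fun _ => 0) (1 ^ 2) f := by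
    rw [one_pow]
    exact hf
  obtain ⟨h1, h2, h3, h4⟩ := analysis one_pos le_rfl hf'
  simp only [one_mul] at h1 h2 h3 h4
  have hmid : f.val midP * Real.cos bL = f.vert (Sum.inl 0) * Real.cos (bL / 2) := by
    have := h2 0 (bL / 2) ⟨by positivity, by linarith⟩
    rw [show bL - bL / 2 = bL / 2 by ring] at this
    exact this
  have hcm : Real.cos bL < Real.cos (bL / 2) :=
    Real.cos_lt_cos_of_nonneg_of_le_pi (by positivity) (by linarith) (by linarith)
  have hcm1 : Real.cos (bL / 2) < 1 := by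
    rw [← Real.cos_zero]
    exact Real.cos_lt_cos_of_nonneg_of_le_pi le_rfl (by linarith) (by positivity)
  have c1 : f.vert (Sum.inl 0) ≤ f.val midP := hmax (Sum.inl (Sum.inl 0))
  have c2 : f.vert (Sum.inr 0) ≤ f.val midP := hmax (Sum.inl (Sum.inr 0))
  have c3 := h3 0
  have c4 : f.vert (Sum.inl 0) ≤ 0 := by
    have : f.vert (Sum.inr 0) * Real.cos bL ≤ f.val midP * Real.cos bL := by nlinarith
    rw [c3, hmid] at this
    nlinarith
  have c5 : 0 ≤ f.vert (Sum.inl 0) := by
    have : f.vert (Sum.inl 0) * Real.cos bL ≤ f.val midP * Real.cos bL := by nlinarith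
    rw [hmid] at this
    nlinarith
  have c6 : f.vert (Sum.inl 0) = 0 := le_antisymm c4 c5
  have c7 : f.val midP = 0 := by
    rw [c6, zero_mul] at hmid
    exact (mul_eq_zero.1 hmid).resolve_right hcb.ne'
  have d1 : f.vert (Sum.inl 1) ≤ 0 := by
    rw [← c7]
    exact hmax (Sum.inl (Sum.inl 1))
  have d2 : f.vert (Sum.inl 2) ≤ 0 := by
    rw [← c7]
    exact hmax (Sum.inl (Sum.inl 2))
  have d3 := h4 0
  have r1 : (0 : Fin 3) + 1 = 1 := rfl
  have r2 : (0 : Fin 3) + 2 = 2 := rfl
  rw [r1, r2, c6, mul_zero] at d3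
  have d4 := (mul_eq_zero.1 d3).resolve_left hcb.ne'
  refine zero_of_corners one_pos le_rfl hf' fun i => ?_
  fin_cases i
  · exact c6
  · show f.vert (Sum.inl 1) = 0
    linarith
  · show f.vert (Sum.inl 2) = 0
    linarith

theorem hot_ne_univ : hotSet tri (fun _ => 0) ≠ Set.univ := by
  intro h
  have hm : midP ∈ hotSet tri (fun _ => 0) := by
    rw [h]
    exact Set.mem_univ _
  obtain ⟨μ, f, hμ, hf, hex⟩ := hm
  rw [second_iff hμ] at hf
  rcases hex with hex | hex
  · exact mid_not_max hf hex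
  · refine mid_not_max (neg_eigen hf) fun Q => ?_
    rw [neg_val, neg_val]
    exact neg_le_neg (hex Q)

end Pool.Agent.R228.QG
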